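import Pool.Agent.R414.EA.Multi

/-!
# The number of systems which map given points to given points
-/

set_option autoImplicit false

open Finset
open Pool.Agent.W276.GE

noncomputable section

namespace Pool.Agent.R414.EA

/-- counting by prefixes -/
theorem prefix_count {G : Type} [DecidableEq G] (g₀ : G) {n : ℕ} (S : Finset (Fin n → G))
    (b : Fin n → ℕ)
    (hb : ∀ l, ∀ F₀ ∈ S,
      ((S.filter fun F => ∀ l' : Fin n, l' < l → F l' = F₀ l').image (fun F => F l)).card ≤ b l) :
    S.card ≤ ∏ l, b l := by
  classical
  let tr : ℕ → (Fin n → G) → (Fin n → G) := fun m F l => if (l : ℕ) < m then F l else g₀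
  have key : ∀ m, m ≤ n → (S.image (tr m)).card ≤
      ∏ l ∈ (Finset.univ : Finset (Fin n)).filter (fun l : Fin n => l.val < m), b l := by
    intro m
    induction m with
    | zero =>
      intro _
      have h1 : S.image (tr 0) ⊆ {fun _ => g₀} := by
        intro F hF
        obtain ⟨F', -, rfl⟩ := Finset.mem_image.mp hF
        rw [Finset.mem_singleton]
        funext l
        simp [tr]
      have h2 := Finset.card_le_card h1
      simpa using h2
    | succ m ih =>
      intro hm
      have h1 := ih (by omega)
      have h2 : (S.image (tr (m + 1))).image (tr m) = S.image (tr m) := by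
        rw [Finset.image_image]
        congr 1
        funext F l
        simp only [Function.comp, tr]
        split_ifs with h3 h4
        · rfl
        · omega
        · rfl
      have h3 : (S.image (tr (m + 1))).card ≤ b ⟨m, by omega⟩ * (S.image (tr m)).card := by
        rw [← h2]
        refine Finset.card_le_mul_card_image _ _ fun a ha => ?_
        rw [h2] at ha
        obtain ⟨F₀, hF₀, rfl⟩ := Finset.mem_image.mp ha
        refine le_trans ?_ (hb ⟨m, by omega⟩ F₀ hF₀)
        refine Finset.card_le_card_of_injOn (fun F => F ⟨m, by omega⟩) ?_ ?_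
        · intro F' hF'
          rw [Finset.mem_coe, Finset.mem_filter] at hF'
          obtain ⟨F, hF, rfl⟩ := Finset.mem_image.mp hF'.1
          rw [Finset.mem_coe, Finset.mem_image]
          refine ⟨F, ?_, ?_⟩
          · rw [Finset.mem_filter]
            refine ⟨hF, fun l' hl' => ?_⟩
            have h4 := congrFun hF'.2 l'
            have h5 : (l' : ℕ) < m := hl'
            simp only [tr, if_pos h5, if_pos (show (l' : ℕ) < m + 1 by omega)] at h4
            exact h4
          · simp [tr]
        · intro F' hF' F'' hF'' heq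
          rw [Finset.mem_coe, Finset.mem_filter] at hF' hF''
          obtain ⟨F, hF, rfl⟩ := Finset.mem_image.mp hF'.1
          obtain ⟨F₂, hF₂, rfl⟩ := Finset.mem_image.mp hF''.1
          funext l
          rcases lt_trichotomy (l : ℕ) m with h | h | h
          · have e1 := congrFun (hF'.2.trans hF''.2.symm) l
            simp only [tr, if_pos h, if_pos (show (l : ℕ) < m + 1 by omega)] at e1 ⊢
            exact e1
          · have e1 : l = ⟨m, by omega⟩ := Fin.ext h
            rw [e1]
            exact heq
          · simp only [tr, if_neg (show ¬ (l : ℕ) < m + 1 by omega)]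
      have h4 : (Finset.univ : Finset (Fin n)).filter (fun l : Fin n => l.val < m + 1) =
          insert ⟨m, by omega⟩ ((Finset.univ : Finset (Fin n)).filter (fun l : Fin n => l.val < m)) := by
        ext l
        simp only [Finset.mem_filter, Finset.mem_univ, true_and, Finset.mem_insert, Fin.ext_iff]
        omega
      rw [h4, Finset.prod_insert (by simp)]
      exact h3.trans (Nat.mul_le_mul_left _ h1)
  have h1 := key n le_rfl
  have h2 : S.image (tr n) = S := by
    have : tr n = id := by
      funext F l
      simp only [tr, id]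
      rw [if_pos l.2]
    rw [this, Finset.image_id]
  have h3 : (Finset.univ : Finset (Fin n)).filter (fun l : Fin n => l.val < n) = Finset.univ := by
    ext l
    simp [l.2]
  rwa [h2, h3] at h1

/-- the number of systems which map the points `p i` to the points `q i` -/
theorem fibre_multi {N k : ℕ} (d H : ℕ) (p q : Fin k → Fin (N + 1) → ℂ)
    (j : Fin k → Fin (N + 1)) (hj : ∀ i, q i (j i) ≠ 0) (hj' : ∀ i l, l < j i → q i l = 0) :
    {F : Fin (N + 1) → E (N + 1) d → ℤ | F ∈ Fb (N + 1) d H ∧
      ∀ i, ∃ c : ℂ, ∀ l, ev (F l) (p i) = c * q i l}.ncard ≤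
      ∏ l : Fin (N + 1), nzS d (2 * H) (fun i : {i : Fin k // j i ≠ l} => p i.1) := by
  classical
  set S : Finset (Fin (N + 1) → E (N + 1) d → ℤ) := (Fb (N + 1) d H).filter fun F =>
    ∀ i, ∃ c : ℂ, ∀ l, ev (F l) (p i) = c * q i l with hS
  have h1 : {F : Fin (N + 1) → E (N + 1) d → ℤ | F ∈ Fb (N + 1) d H ∧
      ∀ i, ∃ c : ℂ, ∀ l, ev (F l) (p i) = c * q i l} = (S : Set _) := by
    ext F
    simp [hS]
  rw [h1, Set.ncard_coe_finset]
  refine prefix_count (0 : E (N + 1) d → ℤ) S _ fun l F₀ hF₀ => ?_
  rw [hS, Finset.mem_filter] at hF₀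
  rw [nzS, ← Set.ncard_coe_finset]
  refine Set.ncard_le_ncard_of_injOn (fun g => g - F₀ l) ?_ ?_ (nzS_finite _ _ _)
  · intro g hg
    rw [Finset.mem_coe, Finset.mem_image] at hg
    obtain ⟨F, hF, rfl⟩ := hg
    rw [Finset.mem_filter, hS, Finset.mem_filter] at hF
    obtain ⟨⟨hFb, hFq⟩, hpre⟩ := hF
    refine ⟨?_, ?_⟩
    · have h2 := sub_mem_box (mem_Fb.mp hFb l) (mem_Fb.mp hF₀.1 l)
      rwa [← two_mul] at h2
    · rintro ⟨i, hi⟩
      simp only [ev_sub]
      obtain ⟨c, hc⟩ := hFq i
      obtain ⟨c₀, hc₀⟩ := hF₀.2 i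
      rcases lt_or_gt_of_ne hi with hlt | hgt
      · have e1 := hc (j i)
        have e2 := hc₀ (j i)
        rw [hpre (j i) hlt, e2] at e1
        have e3 : c₀ = c := mul_right_cancel₀ (hj i) e1
        rw [hc l, hc₀ l, e3, sub_self]
      · rw [hc l, hc₀ l, hj' i l hgt, mul_zero, mul_zero, sub_self]
  · intro g _ g' _ h
    exact sub_left_injective h

end Pool.Agent.R414.EA
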