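import Pool.Agent.R414.EA.Gain
import Pool.Agent.R414.EA.Fib

/-!
# The number of systems with several preperiodic points: the union bound
-/

set_option autoImplicit false

open Finset Height NumberField
open Pool.Agent.W276.GE

noncomputable section

namespace Pool.Agent.R414.EA

theorem nzS_bound (hspan : S_span) (hcov : S_cov) (hlow : S_low) (hpack : S_pack)
    (hroot : S_root) (hprod : S_prod) (N D s B : ℕ) (hN : 1 ≤ N) (hD : 1 ≤ D) :
    ∃ d₀ : ℕ, ∀ d, d₀ ≤ d → s ≤ d ∧ ∃ C : ℝ, 0 < C ∧ ∀ H : ℕ, 1 ≤ H →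
      ∀ F ∈ Fb (N + 1) d H, NoZero F → ∀ (K : Type) [Field K] [NumberField K],
      Module.finrank ℚ K ≤ D → ∀ P : Fin (N + 1) → K, P ≠ 0 →
      mulHeight (fun i => ev (F i) P) ≤ mulHeight P → ∀ φ : K →+* ℂ,
      ∀ (ι : Type) [Fintype ι], Fintype.card ι ≤ s →
      ∀ p : ι → Fin (N + 1) → ℂ, (∀ i, p i ≠ 0) → (∀ i j, i ≠ j → ∀ c : ℂ, p i ≠ c • p j) →
      ∀ i₀, p i₀ = (fun l => φ (P l)) →
      (nzS d (2 * H) p : ℝ) * mulHeight P ^ B ≤
        C * (H : ℝ) ^ (Fintype.card (E (N + 1) d) - Fintype.card ι) := by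
  obtain ⟨d₁, hd₁⟩ := nz_bound hspan hcov hlow hpack N D (B + s) hN hD
  refine ⟨max d₁ (s + 4 * D * (N + 1) * B), fun d hd => ?_⟩
  have hd2 : s + 4 * D * (N + 1) * B ≤ d := (le_max_right _ _).trans hd
  have hsd : s ≤ d := by omega
  refine ⟨hsd, ?_⟩
  obtain ⟨C₁, hC₁, h₁⟩ := hd₁ d ((le_max_left _ _).trans hd)
  obtain ⟨C₂, hC₂, h₂⟩ := nzS_gain hroot hprod N D s B d hN hD hd2
  have hM := card_E_ge N d hN
  refine ⟨max C₁ C₂, lt_max_of_lt_left hC₁, ?_⟩
  intro H hH F hF hnz K _ _ hK P hP hle φ ι _ hι p h0 hp i₀ hi₀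
  have hX1 : 1 ≤ mulHeight P := one_le_mulHeight P
  have hH1 : (1 : ℝ) ≤ H := by exact_mod_cast hH
  set M := Fintype.card (E (N + 1) d) with hMd
  rcases le_or_gt (mulHeight P) ((H : ℝ) ^ (4 * D * (N + 1))) with hc | hc
  · refine (h₂ K hK φ P ι hι p h0 hp i₀ hi₀ H hH hc).trans ?_
    gcongr
    exact le_max_right _ _
  · have h3 := h₁ H hH F hF hnz K hK P hP hle
    have h4 : (nzS d (2 * H) p : ℝ) ≤ nz d (2 * H) P := by
      rw [← nz_map φ P]
      have : nzS d (2 * H) p ≤ nz d (2 * H) (fun i => φ (P i)) := by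
        refine Set.ncard_le_ncard ?_ (nz_finite _ _ _)
        rintro g ⟨hg, hgz⟩
        refine ⟨hg, ?_⟩
        rw [← hi₀]
        exact hgz i₀
      exact_mod_cast this
    have hHX : (H : ℝ) ≤ mulHeight P := by
      refine le_trans ?_ hc.le
      calc (H : ℝ) = (H : ℝ) ^ 1 := (pow_one _).symm
        _ ≤ (H : ℝ) ^ (4 * D * (N + 1)) := pow_le_pow_right₀ hH1 (by
            have : 1 ≤ D * (N + 1) := Nat.mul_pos hD (by omega)
            nlinarith)
    set X := mulHeight P with hX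
    have hX0 : 0 < X := by linarith
    have h5 : ((nzS d (2 * H) p : ℝ) * X ^ B) * (H : ℝ) ^ s ≤ (C₁ * (H : ℝ) ^ (M - s)) * (H : ℝ) ^ s := by
      calc ((nzS d (2 * H) p : ℝ) * X ^ B) * (H : ℝ) ^ s
          ≤ ((nz d (2 * H) P : ℝ) * X ^ B) * X ^ s := by gcongr
        _ = (nz d (2 * H) P : ℝ) * X ^ (B + s) := by rw [pow_add]; ring
        _ ≤ C₁ * (H : ℝ) ^ (M - 1) := h3
        _ ≤ C₁ * (H : ℝ) ^ M := by
            gcongr
            exact Nat.sub_le _ _
        _ = _ := by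
            rw [mul_assoc, ← pow_add]
            congr 2
            omega
    have h6 := le_of_mul_le_mul_right h5 (by positivity)
    refine h6.trans ?_
    have h7 : (H : ℝ) ^ (M - s) ≤ (H : ℝ) ^ (M - Fintype.card ι) :=
      pow_le_pow_right₀ hH1 (by omega)
    calc C₁ * (H : ℝ) ^ (M - s) ≤ C₁ * (H : ℝ) ^ (M - Fintype.card ι) := by gcongr
      _ ≤ _ := by
          gcongr
          exact le_max_left _ _

/-- Over some number field of degree at most `D` there are `k` different points, one of them of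
height between `2^κ` and `2^(κ+1)`, the other ones and all the images not higher. -/
def ManyAt {N d : ℕ} (D k κ : ℕ) (F : Fin (N + 1) → E (N + 1) d → ℤ) : Prop :=
  ∃ (K : Type) (_ : Field K) (_ : NumberField K), Module.finrank ℚ K ≤ D ∧
    ∃ p : Fin k → Fin (N + 1) → K, (∀ i, p i ≠ 0) ∧ (∀ i j, i ≠ j → ∀ c : K, p i ≠ c • p j) ∧
      ∃ i₀, (∀ i, mulHeight (p i) ≤ mulHeight (p i₀)) ∧
        (∀ i, mulHeight (fun l => ev (F l) (p i)) ≤ mulHeight (p i₀)) ∧
        (2 : ℝ) ^ κ ≤ mulHeight (p i₀) ∧ mulHeight (p i₀) ≤ 2 ^ (κ + 1)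

theorem nonprop_map {K : Type} [Field K] (φ : K →+* ℂ) {n : ℕ} {x y : Fin n → K} (hx : x ≠ 0)
    (h : ∀ c : K, x ≠ c • y) (c : ℂ) : (fun l => φ (x l)) ≠ c • fun l => φ (y l) := by
  intro hc
  obtain ⟨l, hl⟩ := Function.ne_iff.mp hx
  have hyl : y l ≠ 0 := by
    intro h0
    have h1 := congrFun hc l
    simp only [Pi.smul_apply, h0, map_zero, smul_eq_mul, mul_zero] at h1
    exact hl (φ.injective (by rw [h1]; simp))
  apply h (x l / y l)
  funext l'
  have h1 := congrFun hc l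
  have h2 := congrFun hc l'
  simp only [Pi.smul_apply, smul_eq_mul] at h1 h2 ⊢
  apply φ.injective
  have h3 : φ (y l) ≠ 0 := (map_ne_zero φ).mpr hyl
  rw [map_mul, map_div₀, h2, h1]
  field_simp

theorem sum_card_ne {k N : ℕ} (j : Fin k → Fin (N + 1)) :
    ∑ l : Fin (N + 1), Fintype.card {i : Fin k // j i ≠ l} = k * N := by
  classical
  have h1 : ∀ l : Fin (N + 1), Fintype.card {i : Fin k // j i ≠ l} =
      ∑ i : Fin k, if j i ≠ l then 1 else 0 := by
    intro l
    rw [Fintype.card_subtype, Finset.card_filter]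
  simp_rw [h1]
  rw [Finset.sum_comm]
  have h2 : ∀ i : Fin k, (∑ l : Fin (N + 1), if j i ≠ l then 1 else 0) = N := by
    intro i
    rw [← Finset.card_filter]
    have h3 : (Finset.univ.filter fun l => j i ≠ l) = Finset.univ.erase (j i) := by
      ext l
      simp [eq_comm]
    rw [h3, Finset.card_erase_of_mem (Finset.mem_univ _), Finset.card_univ, Fintype.card_fin,
      Nat.add_sub_cancel]
  rw [Finset.sum_congr rfl fun i _ => h2 i, Finset.sum_const, Finset.card_univ, Fintype.card_fin,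
    smul_eq_mul]

/-- the product of the bounds over the coordinates -/
theorem prod_bound {N d k H B : ℕ} {C₁ u : ℝ} (hN : 1 ≤ N)
    (hu : 1 ≤ u) (hk : k ≤ Fintype.card (E (N + 1) d)) (p : Fin k → Fin (N + 1) → ℂ) (i₀ : Fin k)
    (htriv : ∀ S : Fin k → Prop, ∀ [DecidablePred S],
      (nzS d (2 * H) (fun i : {i : Fin k // S i} => p i.1) : ℝ) ≤
        C₁ * (H : ℝ) ^ (Fintype.card (E (N + 1) d) - Fintype.card {i : Fin k // S i}))
    (hgain : ∀ S : Fin k → Prop, ∀ [DecidablePred S], S i₀ →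
      (nzS d (2 * H) (fun i : {i : Fin k // S i} => p i.1) : ℝ) * u ^ B ≤
        C₁ * (H : ℝ) ^ (Fintype.card (E (N + 1) d) - Fintype.card {i : Fin k // S i}))
    (j : Fin k → Fin (N + 1)) :
    (∏ l : Fin (N + 1), (nzS d (2 * H) (fun i : {i : Fin k // j i ≠ l} => p i.1) : ℝ)) ≤
      C₁ ^ (N + 1) * (H : ℝ) ^ ((N + 1) * Fintype.card (E (N + 1) d) - k * N) / u ^ B := by
  classical
  set M := Fintype.card (E (N + 1) d) with hM
  have hu0 : 0 < u := by linarith
  obtain ⟨l₁, hl₁⟩ : ∃ l₁ : Fin (N + 1), j i₀ ≠ l₁ := by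
    by_contra hcon
    push Not at hcon
    have h1 := (hcon ⟨0, by omega⟩).symm.trans (hcon ⟨1, by omega⟩)
    exact absurd (congrArg Fin.val h1) (by norm_num)
  have h1 : ∀ l : Fin (N + 1), (nzS d (2 * H) (fun i : {i : Fin k // j i ≠ l} => p i.1) : ℝ) ≤
      (C₁ * (H : ℝ) ^ (M - Fintype.card {i : Fin k // j i ≠ l})) *
        (if l = l₁ then 1 / u ^ B else 1) := by
    intro l
    by_cases hl : l = l₁
    · rw [if_pos hl, mul_one_div, le_div_iff₀ (by positivity)]
      subst hl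
      exact hgain (fun i => j i ≠ l) hl₁
    · rw [if_neg hl, mul_one]
      exact htriv (fun i => j i ≠ l)
  refine (Finset.prod_le_prod (fun l _ => Nat.cast_nonneg _) fun l _ => h1 l).trans ?_
  rw [Finset.prod_mul_distrib, Finset.prod_mul_distrib, Finset.prod_ite_eq' Finset.univ l₁,
    if_pos (Finset.mem_univ _), Finset.prod_pow_eq_pow_sum, Finset.prod_const, Finset.card_univ,
    Fintype.card_fin]
  have h2 : ∑ l : Fin (N + 1), (M - Fintype.card {i : Fin k // j i ≠ l}) = (N + 1) * M - k * N := by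
    have h3 : ∑ l : Fin (N + 1), ((M - Fintype.card {i : Fin k // j i ≠ l}) +
        Fintype.card {i : Fin k // j i ≠ l}) = (N + 1) * M := by
      have : ∀ l : Fin (N + 1), (M - Fintype.card {i : Fin k // j i ≠ l}) +
          Fintype.card {i : Fin k // j i ≠ l} = M := by
        intro l
        have h4 : Fintype.card {i : Fin k // j i ≠ l} ≤ k := by
          have := Fintype.card_subtype_le (fun i : Fin k => j i ≠ l)
          rwa [Fintype.card_fin] at this
        omega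
      rw [Finset.sum_congr rfl fun l _ => this l, Finset.sum_const, Finset.card_univ,
        Fintype.card_fin, smul_eq_mul]
    rw [Finset.sum_add_distrib, sum_card_ne] at h3
    omega
  rw [h2, mul_one_div]

theorem manyAt_count {N D d κ H c B k : ℕ} {C₁ C₂ : ℝ} (hC₁ : 0 < C₁) (hH : 1 ≤ H) (hN : 1 ≤ N)
    (hB : B = c * (2 * (N + 1) * k) + 1) (hkd : k ≤ d)
    (htriv : ∀ (ι : Type) [Fintype ι], Fintype.card ι ≤ k → ∀ p : ι → Fin (N + 1) → ℂ,
      (∀ i, p i ≠ 0) → (∀ i j, i ≠ j → ∀ c : ℂ, p i ≠ c • p j) →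
      (nzS d (2 * H) p : ℝ) ≤ C₁ * (H : ℝ) ^ (Fintype.card (E (N + 1) d) - Fintype.card ι))
    (hnz : ∀ F ∈ Fb (N + 1) d H, NoZero F → ∀ (K : Type) [Field K] [NumberField K],
      Module.finrank ℚ K ≤ D → ∀ P : Fin (N + 1) → K, P ≠ 0 →
      mulHeight (fun i => ev (F i) P) ≤ mulHeight P → ∀ φ : K →+* ℂ,
      ∀ (ι : Type) [Fintype ι], Fintype.card ι ≤ k →
      ∀ p : ι → Fin (N + 1) → ℂ, (∀ i, p i ≠ 0) → (∀ i j, i ≠ j → ∀ c : ℂ, p i ≠ c • p j) →
      ∀ i₀, p i₀ = (fun l => φ (P l)) →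
      (nzS d (2 * H) p : ℝ) * mulHeight P ^ B ≤
        C₁ * (H : ℝ) ^ (Fintype.card (E (N + 1) d) - Fintype.card ι))
    {A : Finset ℂ} (hA1 : (A.card : ℝ) ≤ C₂ * (2 ^ (κ + 1)) ^ c)
    (hA : ∀ (K : Type) [Field K] [NumberField K], Module.finrank ℚ K ≤ D →
      ∀ x : K, mulHeight₁ x ≤ 2 ^ (κ + 1) → ∀ φ : K →+* ℂ, φ x ∈ A) :
    (({F | F ∈ Fb (N + 1) d H ∧ NoZero F ∧ ManyAt D k κ F} :
      Set (Fin (N + 1) → E (N + 1) d → ℤ)).ncard : ℝ) ≤
      ((C₂ * 2 ^ c) ^ (2 * (N + 1) * k) * C₁ ^ (N + 1)) *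
        (H : ℝ) ^ ((N + 1) * Fintype.card (E (N + 1) d) - k * N) * (1 / 2) ^ κ := by
  classical
  set M := Fintype.card (E (N + 1) d) with hM
  have hMk : k ≤ M := by
    have := card_E_ge N d hN
    omega
  have hH1 : (1 : ℝ) ≤ H := by exact_mod_cast hH
  have hu1 : (1 : ℝ) ≤ 2 ^ κ := one_le_pow₀ (by norm_num)
  let Pt : Finset (Fin k → Fin (N + 1) → ℂ) :=
    Fintype.piFinset fun _ => Fintype.piFinset fun _ => A
  let R : ℝ := C₁ ^ (N + 1) * (H : ℝ) ^ ((N + 1) * M - k * N) / (2 ^ κ) ^ B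
  have hR0 : 0 ≤ R := by positivity
  let Pr : Finset ((Fin k → Fin (N + 1) → ℂ) × (Fin k → Fin (N + 1) → ℂ)) :=
    (Pt ×ˢ Pt).filter fun pq => (∀ i, pq.2 i ≠ 0) ∧ ∀ j : Fin k → Fin (N + 1),
      (∏ l : Fin (N + 1), (nzS d (2 * H) (fun i : {i : Fin k // j i ≠ l} => pq.1 i.1) : ℝ)) ≤ R
  let S : (Fin k → Fin (N + 1) → ℂ) × (Fin k → Fin (N + 1) → ℂ) →
      Finset (Fin (N + 1) → E (N + 1) d → ℤ) :=
    fun pq => (Fb (N + 1) d H).filter fun F => ∀ i, ∃ c : ℂ, ∀ l, ev (F l) (pq.1 i) = c * pq.2 i l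
  have hS : ∀ pq ∈ Pr, ((S pq).card : ℝ) ≤ R := by
    rintro ⟨p, q⟩ hpq
    rw [Finset.mem_filter] at hpq
    have hmin : ∀ i, ∃ j : Fin (N + 1), q i j ≠ 0 ∧ ∀ l, l < j → q i l = 0 := by
      intro i
      obtain ⟨l₀, hl₀⟩ := Function.ne_iff.mp (hpq.2.1 i)
      obtain ⟨j, hj, hjm⟩ := WellFounded.has_min (wellFounded_lt (α := Fin (N + 1)))
        {l | q i l ≠ 0} ⟨l₀, hl₀⟩
      refine ⟨j, hj, fun l hl => ?_⟩
      by_contra hne
      exact hjm l hne hl
    choose j hj hj' using hmin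
    have h1 := fibre_multi d H p q j hj hj'
    have h2 : ((S (p, q) : Finset _) : Set (Fin (N + 1) → E (N + 1) d → ℤ)) =
        {F | F ∈ Fb (N + 1) d H ∧ ∀ i, ∃ c : ℂ, ∀ l, ev (F l) (p i) = c * q i l} := by
      ext F
      simp [S]
    rw [← h2, Set.ncard_coe_finset] at h1
    have h3 := hpq.2.2 j
    refine le_trans ?_ h3
    exact_mod_cast h1
  have hsub : {F | F ∈ Fb (N + 1) d H ∧ NoZero F ∧ ManyAt D k κ F} ⊆
      ((Pr.biUnion S : Finset _) : Set (Fin (N + 1) → E (N + 1) d → ℤ)) := by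
    rintro F ⟨hF, hF0, K, i1, i2, hK, p, hp0, hpp, i₀, hmax, himg, hX1, hX2⟩
    let φ : K →+* ℂ := Classical.arbitrary _
    have hchp : ∀ i, ∃ c : K, c ≠ 0 ∧ ∀ l, φ (c * p i l) ∈ A := fun i =>
      exists_norm φ (fun x hx => hA K hK x hx φ) (p i) (hp0 i) ((hmax i).trans hX2)
    choose a ha hap using hchp
    have hQ : ∀ i, (fun l => ev (F l) (p i)) ≠ 0 := fun i => image_ne_zero hF0 φ (hp0 i)
    have hchq : ∀ i, ∃ c : K, c ≠ 0 ∧ ∀ l, φ (c * ev (F l) (p i)) ∈ A := fun i =>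
      exists_norm φ (fun x hx => hA K hK x hx φ) _ (hQ i) ((himg i).trans hX2)
    choose b hb hbq using hchq
    -- the normalised points
    have hap0 : ∀ i, (fun l => a i * p i l) ≠ 0 := by
      intro i h
      apply hp0 i
      funext l
      have h1 := congrFun h l
      simp only [Pi.zero_apply, mul_eq_zero, ha i, false_or] at h1
      exact h1
    have happ : ∀ i j, i ≠ j → ∀ c : K, (fun l => a i * p i l) ≠ c • fun l => a j * p j l := by
      intro i j hij c h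
      apply hpp i j hij ((a i)⁻¹ * (c * a j))
      funext l
      have h1 := congrFun h l
      simp only [Pi.smul_apply, smul_eq_mul] at h1 ⊢
      have h2 := ha i
      field_simp
      linear_combination h1
    have hC0 : ∀ i, (fun l => φ (a i * p i l)) ≠ 0 := by
      intro i h
      apply hap0 i
      funext l
      have h1 := congrFun h l
      simp only [Pi.zero_apply, map_eq_zero] at h1
      exact h1
    have hCp : ∀ i j, i ≠ j → ∀ c : ℂ,
        (fun l => φ (a i * p i l)) ≠ c • fun l => φ (a j * p j l) :=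
      fun i j hij c => nonprop_map φ (hap0 i) (happ i j hij) c
    have hPle : mulHeight (fun l => ev (F l) (fun l => a i₀ * p i₀ l)) ≤
        mulHeight (fun l => a i₀ * p i₀ l) := by
      have h1 : (fun l => ev (F l) (fun l => a i₀ * p i₀ l)) =
          (a i₀ ^ d) • fun l => ev (F l) (p i₀) := by
        funext l
        rw [ev_smul]
        rfl
      have h2 : (fun l => a i₀ * p i₀ l) = a i₀ • p i₀ := rfl
      rw [h1, h2, mulHeight_smul_eq_mulHeight _ (pow_ne_zero _ (ha i₀)),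
        mulHeight_smul_eq_mulHeight _ (ha i₀)]
      exact himg i₀
    have hHt : (2 : ℝ) ^ κ ≤ mulHeight (fun l => a i₀ * p i₀ l) := by
      have h2 : (fun l => a i₀ * p i₀ l) = a i₀ • p i₀ := rfl
      rw [h2, mulHeight_smul_eq_mulHeight _ (ha i₀)]
      exact hX1
    rw [Finset.mem_coe, Finset.mem_biUnion]
    refine ⟨(fun i l => φ (a i * p i l), fun i l => φ (b i * ev (F l) (p i))), ?_, ?_⟩
    · rw [Finset.mem_filter]
      refine ⟨?_, ?_, ?_⟩
      · rw [Finset.mem_product]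
        exact ⟨Fintype.mem_piFinset.2 fun i => Fintype.mem_piFinset.2 (hap i),
          Fintype.mem_piFinset.2 fun i => Fintype.mem_piFinset.2 (hbq i)⟩
      · intro i h
        apply hQ i
        funext l
        have h1 := congrFun h l
        simp only [Pi.zero_apply, map_eq_zero, mul_eq_zero, hb i, false_or] at h1
        exact h1
      · intro j
        refine prod_bound hN hu1 hMk (fun i l => φ (a i * p i l)) i₀ ?_ ?_ j
        · intro S _
          refine htriv {i : Fin k // S i} ?_ _ (fun i => hC0 i.1) (fun i j' hij c =>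
            hCp i.1 j'.1 (fun h => hij (Subtype.ext h)) c)
          have := Fintype.card_subtype_le S
          rwa [Fintype.card_fin] at this
        · intro S _ hS₀
          have h1 := hnz F hF hF0 K hK (fun l => a i₀ * p i₀ l) (hap0 i₀) hPle φ
            {i : Fin k // S i} (by
              have := Fintype.card_subtype_le S
              rwa [Fintype.card_fin] at this) (fun i l => φ (a i.1 * p i.1 l))
            (fun i => hC0 i.1) (fun i j' hij c => hCp i.1 j'.1 (fun h => hij (Subtype.ext h)) c)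
            ⟨i₀, hS₀⟩ rfl
          refine le_trans ?_ h1
          gcongr
    · rw [Finset.mem_filter]
      refine ⟨hF, fun i => ⟨φ (a i ^ d * (b i)⁻¹), fun l => ?_⟩⟩
      simp only
      rw [← ev_map φ (F l) (fun l => a i * p i l), ev_smul, ← map_mul]
      congr 1
      have := hb i
      field_simp
  have hcardPr : (Pr.card : ℝ) ≤ (C₂ * (2 ^ (κ + 1)) ^ c) ^ (2 * (N + 1) * k) := by
    have h1 : Pr.card ≤ A.card ^ (2 * (N + 1) * k) := by
      refine (Finset.card_filter_le _ _).trans ?_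
      simp only [Pt, Finset.card_product, Fintype.card_piFinset, Finset.prod_const,
        Finset.card_univ, Fintype.card_fin]
      rw [← pow_mul, ← pow_add]
      exact le_of_eq (by congr 1; ring)
    calc (Pr.card : ℝ) ≤ ((A.card ^ (2 * (N + 1) * k) : ℕ) : ℝ) := by exact_mod_cast h1
      _ = (A.card : ℝ) ^ (2 * (N + 1) * k) := by push_cast; rfl
      _ ≤ _ := by gcongr
  calc (({F | F ∈ Fb (N + 1) d H ∧ NoZero F ∧ ManyAt D k κ F} :
      Set (Fin (N + 1) → E (N + 1) d → ℤ)).ncard : ℝ)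
      ≤ ((Pr.biUnion S).card : ℝ) := by
        have := Set.ncard_le_ncard hsub (Finset.finite_toSet _)
        rw [Set.ncard_coe_finset] at this
        exact_mod_cast this
    _ ≤ ∑ pq ∈ Pr, ((S pq).card : ℝ) := by
        exact_mod_cast Finset.card_biUnion_le
    _ ≤ ∑ _pq ∈ Pr, R := Finset.sum_le_sum hS
    _ = Pr.card * R := by rw [Finset.sum_const, nsmul_eq_mul]
    _ ≤ (C₂ * (2 ^ (κ + 1)) ^ c) ^ (2 * (N + 1) * k) * R := by gcongr
    _ = _ := by
        set u : ℝ := 2 ^ κ with hudef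
        have hu0 : 0 < u := by linarith
        have e1 : C₂ * (2 ^ (κ + 1)) ^ c = (C₂ * 2 ^ c) * u ^ c := by
          rw [hudef, pow_succ, mul_pow]; ring
        have e3 : (1 / 2 : ℝ) ^ κ = 1 / u := by rw [one_div_pow]
        simp only [R]
        rw [e1, e3, hB, mul_pow, ← pow_mul u, ← hudef, pow_succ]
        have : u ^ (c * (2 * (N + 1) * k)) ≠ 0 := (pow_pos hu0 _).ne'
        field_simp
        ring

/-- summation over the shells -/
theorem shells {α : Type} {W : Set α} (hW : W.Finite) (V : ℕ → Set α)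
    (hVf : ∀ κ, (V κ).Finite) (hcov : ∀ F ∈ W, ∃ κ, F ∈ V κ) {X : ℝ} (hX : 0 ≤ X)
    (hV : ∀ κ, ((V κ).ncard : ℝ) ≤ X * (1 / 2) ^ κ) : (W.ncard : ℝ) ≤ 2 * X := by
  classical
  have hex : ∀ F : α, ∃ κ : ℕ, F ∈ W → F ∈ V κ := by
    intro F
    by_cases h : F ∈ W
    · obtain ⟨κ, hκ⟩ := hcov F h
      exact ⟨κ, fun _ => hκ⟩
    · exact ⟨0, fun h' => absurd h' h⟩
  choose f hf using hex
  let T : Finset ℕ := hW.toFinset.image f
  have hcov2 : hW.toFinset ⊆ T.biUnion fun κ => (hVf κ).toFinset := by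
    intro F hF
    rw [Finset.mem_biUnion]
    refine ⟨f F, Finset.mem_image_of_mem _ hF, ?_⟩
    rw [Set.Finite.mem_toFinset] at hF ⊢
    exact hf F hF
  have h2 : (W.ncard : ℝ) ≤ ∑ κ ∈ T, ((V κ).ncard : ℝ) := by
    have h3 : W.ncard ≤ ∑ κ ∈ T, (V κ).ncard := by
      rw [Set.ncard_eq_toFinset_card _ hW]
      refine (Finset.card_le_card hcov2).trans (Finset.card_biUnion_le.trans ?_)
      refine Finset.sum_le_sum fun κ _ => ?_
      rw [Set.ncard_eq_toFinset_card _ (hVf κ)]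
    exact_mod_cast h3
  have h4 : ∑ κ ∈ T, (1 / 2 : ℝ) ^ κ ≤ 2 := by
    have h5 := summable_geometric_two.sum_le_tsum T (fun i _ => by positivity)
    rwa [tsum_geometric_two] at h5
  calc (W.ncard : ℝ) ≤ ∑ κ ∈ T, ((V κ).ncard : ℝ) := h2
    _ ≤ ∑ κ ∈ T, X * (1 / 2) ^ κ := Finset.sum_le_sum fun κ _ => hV κ
    _ = X * ∑ κ ∈ T, (1 / 2 : ℝ) ^ κ := by rw [Finset.mul_sum]
    _ ≤ X * 2 := mul_le_mul_of_nonneg_left h4 hX
    _ = 2 * X := by ring

end Pool.Agent.R414.EA
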