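import Pool.Agent.R414.EA.Lower

/-!
# Systems with several preperiodic points of bounded degree
-/

set_option autoImplicit false

open Finset
open Pool.Agent.W276.GE Pool.Agent.W376.GE

noncomputable section

namespace Pool.Agent.R414.EA

/-- `k` different preperiodic points of degree at most `D` -/
def ManyC {N d : ℕ} (D k : ℕ) (F : Fin (N + 1) → E (N + 1) d → ℤ) : Prop :=
  ∃ x : Fin k → Fin (N + 1) → ℂ, (∀ i, x i ≠ 0) ∧ (∀ i j, i ≠ j → ∀ c : ℂ, x i ≠ c • x j) ∧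
    ∀ i, (∃ K : IntermediateField ℚ ℂ, FiniteDimensional ℚ K ∧ Module.finrank ℚ K ≤ D ∧
        ∀ l, x i l ∈ K) ∧
      ∃ m n : ℕ, m < n ∧ ∃ c : ℂ, c ≠ 0 ∧ (fm ℂ F)^[n] (x i) = c • (fm ℂ F)^[m] (x i)

theorem exists_compositum (D : ℕ) : ∀ (k : ℕ) (K : Fin k → IntermediateField ℚ ℂ),
    (∀ i, FiniteDimensional ℚ (K i) ∧ Module.finrank ℚ (K i) ≤ D) →
    ∃ L : IntermediateField ℚ ℂ, FiniteDimensional ℚ L ∧ Module.finrank ℚ L ≤ D ^ k ∧
      ∀ i, K i ≤ L := by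
  intro k
  induction k with
  | zero =>
    intro K _
    refine ⟨⊥, inferInstance, ?_, fun i => i.elim0⟩
    rw [IntermediateField.finrank_bot, pow_zero]
  | succ k ih =>
    intro K hK
    obtain ⟨L, hL, hL2, hL3⟩ := ih (fun i => K i.succ) fun i => hK i.succ
    have := (hK 0).1
    refine ⟨K 0 ⊔ L, inferInstance, ?_, ?_⟩
    · refine (IntermediateField.finrank_sup_le _ _).trans ?_
      rw [pow_succ']
      exact Nat.mul_le_mul (hK 0).2 hL2
    · intro i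
      refine Fin.cases ?_ ?_ i
      · exact le_sup_left
      · intro i
        exact (hL3 i).trans le_sup_right

theorem ManyC.many {N d D k : ℕ} {F : Fin (N + 1) → E (N + 1) d → ℤ} (hF : NoZero F)
    (h : ManyC D k F) : Many (D ^ k) k F := by
  classical
  obtain ⟨x, hx0, hxx, hx⟩ := h
  choose K hK using fun i => (hx i).1
  obtain ⟨L, hL, hL2, hL3⟩ := exists_compositum D k K fun i => ⟨(hK i).1, (hK i).2.1⟩
  let y : Fin k → Fin (N + 1) → L := fun i l => ⟨x i l, hL3 i ((hK i).2.2 l)⟩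
  let φ : L →+* ℂ := algebraMap L ℂ
  have hφ : ∀ i, (fun l => φ (y i l)) = x i := fun i => rfl
  have hit : ∀ (n : ℕ) (z : Fin (N + 1) → L),
      (fun l => φ ((fm L F)^[n] z l)) = (fm ℂ F)^[n] (fun l => φ (z l)) := by
    intro n
    induction n with
    | zero => exact fun z => rfl
    | succ n ih =>
      intro z
      rw [Function.iterate_succ_apply, Function.iterate_succ_apply, ih]
      congr 1
      funext l
      exact ev_map φ (F l) z
  have hf0 : ∀ z : Fin (N + 1) → ℂ, z ≠ 0 → fm ℂ F z ≠ 0 :=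
    fun z hz => image_ne_zero hF (RingHom.id ℂ) hz
  have hit0 : ∀ (n : ℕ) (i : Fin k), (fm ℂ F)^[n] (x i) ≠ 0 := by
    intro n i
    induction n with
    | zero => exact hx0 i
    | succ n ih => rw [Function.iterate_succ_apply']; exact hf0 _ ih
  have : NumberField L := { to_charZero := inferInstance, to_finiteDimensional := hL }
  refine ⟨L, inferInstance, this, hL2, y, ?_, ?_, ?_⟩
  · intro i h0
    apply hx0 i
    rw [← hφ i, h0]
    funext l
    simp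
  · intro i j hij c hc
    apply hxx i j hij (φ c)
    rw [← hφ i, ← hφ j, hc]
    funext l
    simp
  · intro i
    obtain ⟨m, n, hmn, c, hc, hcx⟩ := (hx i).2
    obtain ⟨l₀, hl₀⟩ := Function.ne_iff.mp (hit0 m i)
    have hl₀' : (fm ℂ F)^[m] (x i) l₀ ≠ 0 := hl₀
    have hm : ∀ l, φ ((fm L F)^[m] (y i) l) = (fm ℂ F)^[m] (x i) l := fun l => by
      rw [← hφ i]
      exact congrFun (hit m (y i)) l
    have hn : ∀ l, φ ((fm L F)^[n] (y i) l) = (fm ℂ F)^[n] (x i) l := fun l => by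
      rw [← hφ i]
      exact congrFun (hit n (y i)) l
    have hcl : φ ((fm L F)^[n] (y i) l₀ / (fm L F)^[m] (y i) l₀) = c := by
      rw [map_div₀, hm, hn, hcx, Pi.smul_apply, smul_eq_mul, mul_div_cancel_right₀ _ hl₀']
    refine ⟨m, n, hmn, (fm L F)^[n] (y i) l₀ / (fm L F)^[m] (y i) l₀, ?_, ?_⟩
    · intro h0
      rw [h0, map_zero] at hcl
      exact hc hcl.symm
    · funext l
      apply φ.injective
      rw [hn, hcx, Pi.smul_apply, Pi.smul_apply, smul_eq_mul, smul_eq_mul, map_mul, hcl, hm]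

theorem final (N D k : ℕ) (hN : 1 ≤ N) (hD : 1 ≤ D) (hk : 1 ≤ k) : ∃ d₀ : ℕ, ∀ d, d₀ ≤ d →
    ∃ (c C : ℝ) (H₀ : ℕ), 0 < c ∧ 0 < C ∧
      (∀ H : ℕ, 1 ≤ H → (({F | F ∈ Fb (N + 1) d H ∧ (NoZero F ∧ ManyC D k F)} :
        Set (Fin (N + 1) → E (N + 1) d → ℤ)).ncard : ℝ) ≤
          C * (H : ℝ) ^ ((N + 1) * (N + d).choose N - k * N)) ∧
      (∀ H : ℕ, H₀ ≤ H → c * (H : ℝ) ^ ((N + 1) * (N + d).choose N - k * N) ≤
        (({F | F ∈ Fb (N + 1) d H ∧ (NoZero F ∧ ManyC 1 k F)} :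
          Set (Fin (N + 1) → E (N + 1) d → ℤ)).ncard : ℝ)) := by
  obtain ⟨d₀, hd₀⟩ := upper N (D ^ k) k hN (Nat.one_le_pow _ _ hD) hk
  refine ⟨d₀, fun d hd => ?_⟩
  obtain ⟨hkd, C, hC, h⟩ := hd₀ d hd
  obtain ⟨N', rfl⟩ : ∃ N', N = N' + 1 := ⟨N - 1, by omega⟩
  obtain ⟨c, hc, H₀, h'⟩ := lower_count N' d k (by omega) hkd
  refine ⟨c, C, H₀, hc, hC, fun H hH => ?_, fun H hH => ?_⟩
  · have h1 := h H hH
    rw [card_E] at h1
    refine le_trans ?_ h1
    have h2 : ({F | F ∈ Fb (N' + 1 + 1) d H ∧ (NoZero F ∧ ManyC D k F)} :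
        Set (Fin (N' + 1 + 1) → E (N' + 1 + 1) d → ℤ)).ncard ≤
        ({F | F ∈ Fb (N' + 1 + 1) d H ∧ NoZero F ∧ Many (D ^ k) k F} :
        Set (Fin (N' + 1 + 1) → E (N' + 1 + 1) d → ℤ)).ncard := by
      refine Set.ncard_le_ncard ?_ ((Finset.finite_toSet (Fb (N' + 1 + 1) d H)).subset
        fun F h => h.1)
      rintro F ⟨hF, hF0, hFm⟩
      exact ⟨hF, hF0, hFm.many hF0⟩
    exact_mod_cast h2
  · have h1 := h' H hH
    rw [card_E] at h1
    refine h1.trans ?_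
    have h2 : {F : Fin (N' + 2) → E (N' + 2) d → ℤ | F ∈ Fb (N' + 2) d H ∧ NoZero F ∧
        ∀ l, l ≠ 0 → ∀ i, i < k → ev (F l) (pt i : Fin (N' + 2) → ℤ) = 0}.ncard ≤
        ({F | F ∈ Fb (N' + 1 + 1) d H ∧ (NoZero F ∧ ManyC 1 k F)} :
          Set (Fin (N' + 1 + 1) → E (N' + 1 + 1) d → ℤ)).ncard := by
      refine Set.ncard_le_ncard ?_ ((Finset.finite_toSet (Fb (N' + 1 + 1) d H)).subset
        fun F h => h.1)
      rintro F ⟨hF, hF0, hFm⟩
      refine ⟨hF, hF0, ?_⟩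
      obtain ⟨p, hp0, hpp, hpz, hpre⟩ := many_of_pt hk hF0 hFm
      refine ⟨p, hp0, hpp, fun i => ⟨⟨⊥, inferInstance, ?_, fun l => ?_⟩, hpre i⟩⟩
      · rw [IntermediateField.finrank_bot]
      · obtain ⟨z, hz⟩ := hpz i l
        rw [hz]
        exact intCast_mem _ z
    exact_mod_cast h2

end Pool.Agent.R414.EA
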