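import Pool.Agent.R414.EA.Sep

/-!
# Forms which vanish at several points, one of them of large height
-/

set_option autoImplicit false

open Finset Height NumberField
open Pool.Agent.W276.GE

noncomputable section

namespace Pool.Agent.R414.EA

theorem card_E_ge (N d : ℕ) (hN : 1 ≤ N) : d + 1 ≤ Fintype.card (E (N + 1) d) := by
  have h : (⟨0, by omega⟩ : Fin (N + 1)) ≠ ⟨1, by omega⟩ := by
    intro h
    exact absurd (congrArg Fin.val h) (by norm_num)
  have h1 := Fintype.card_le_of_injective _ (Pool.Agent.W613.GEPack.bx_inj (d := d) h)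
  rwa [Fintype.card_fin] at h1

/-- the bound without gain -/
theorem nzS_trivial (N d s : ℕ) (hN : 1 ≤ N) (hs : s ≤ d) : ∃ C : ℝ, 0 < C ∧
    ∀ (ι : Type) [Fintype ι], Fintype.card ι ≤ s → ∀ p : ι → Fin (N + 1) → ℂ, (∀ i, p i ≠ 0) →
      (∀ i j, i ≠ j → ∀ c : ℂ, p i ≠ c • p j) → ∀ H : ℕ, 1 ≤ H →
      (nzS d (2 * H) p : ℝ) ≤ C * (H : ℝ) ^ (Fintype.card (E (N + 1) d) - Fintype.card ι) := by
  obtain ⟨c₀, hc₀⟩ := exists_mono_bound (N + 1) d (bd N s)
  have hM := card_E_ge N d hN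
  refine ⟨(5 + 2 * (d + 1) * c₀) ^ Fintype.card (E (N + 1) d) * 8 ^ (d + 1), by positivity, ?_⟩
  intro ι _ hι p h0 hp H hH
  obtain ⟨b, hb, hV, a, ha, hinj, -⟩ := exists_sep hι p h0 hp
  have h1 := nzS_le (w := 1) hH a b (hc₀ a b ha hb) p hV hinj (by omega) (by omega) le_rfl
    (by omega) (by
      intro h hh _
      funext k
      have h2 := hh k
      simp only [Nat.cast_one, sub_self, mul_zero] at h2
      have h3 := abs_eq_zero.mp (le_antisymm h2 (abs_nonneg _))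
      simpa using h3)
  simpa using h1

theorem exists_coord (hprod : S_prod) {K : Type} [Field K] [NumberField K] {N : ℕ}
    (P : Fin (N + 1) → K) (v : K) (hv : v ≠ 0) :
    ∃ l, mulHeight P ≤ mulHeight₁ (P l / v) ^ (N + 1) := by
  obtain ⟨l, -, hl⟩ := Finset.exists_max_image (Finset.univ : Finset (Fin (N + 1)))
    (fun l => mulHeight₁ (P l / v)) ⟨0, Finset.mem_univ _⟩
  refine ⟨l, ?_⟩
  have h1 := hprod K (N + 2) (Fin.cons v P) 0 (by simpa using hv)
  have h2 : mulHeight P ≤ mulHeight (Fin.cons v P : Fin (N + 2) → K) := by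
    have h3 := mulHeight_comp_le (K := K) (Fin.succ : Fin (N + 1) → Fin (N + 2))
      (Fin.cons v P : Fin (N + 2) → K)
    have h4 : (Fin.cons v P : Fin (N + 2) → K) ∘ Fin.succ = P := by
      funext i
      simp
    rwa [h4] at h3
  refine h2.trans (h1.trans ?_)
  have h3 : (Finset.univ.erase (0 : Fin (N + 2))) =
      Finset.univ.image (Fin.succ : Fin (N + 1) → Fin (N + 2)) := by
    ext i
    simp only [Finset.mem_erase, Finset.mem_univ, and_true, Finset.mem_image, true_and]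
    rw [← Fin.exists_succ_eq]
  rw [h3, Finset.prod_image fun x _ y _ h => Fin.succ_injective _ h]
  simp only [Fin.cons_succ, Fin.cons_zero]
  calc ∏ i, mulHeight₁ (P i / v) ≤ ∏ _i : Fin (N + 1), mulHeight₁ (P l / v) :=
        Finset.prod_le_prod (fun i _ => (mulHeight₁_pos _).le) fun i hi => hl i hi
    _ = _ := by rw [Finset.prod_const, Finset.card_univ, Fintype.card_fin]

theorem height_nat_le {K : Type} [Field K] [NumberField K] {m : ℕ} (hm : 1 ≤ m) :
    mulHeight₁ (m : K) ≤ (m : ℝ) ^ Module.finrank ℚ K := by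
  have h1 := mulHeight₁_sum_le (K := K) (s := Finset.range m) ⟨0, Finset.mem_range.mpr hm⟩
    (fun _ => 1)
  rw [Finset.sum_const, Finset.card_range, nsmul_eq_mul, mul_one] at h1
  simp only [mulHeight₁_one, Finset.prod_const_one, mul_one] at h1
  rwa [NumberField.totalWeight_eq_finrank] at h1

theorem height_diff {K : Type} [Field K] [NumberField K] {D A m : ℕ}
    (hD : Module.finrank ℚ K ≤ D) (hm : 1 ≤ m) (hmA : m ≤ A) (x₀ x₁ y : K)
    (h : x₁ = x₀ + m * y) :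
    mulHeight₁ y ≤ (2 * A : ℝ) ^ D * (mulHeight₁ x₀ * mulHeight₁ x₁) := by
  have hm0 : (m : K) ≠ 0 := by
    rw [Nat.cast_ne_zero]
    omega
  have h1 : y = (x₁ - x₀) * (m : K)⁻¹ := by
    rw [h]
    field_simp
    ring
  have hA1 : (1 : ℝ) ≤ A := by exact_mod_cast hm.trans hmA
  rw [h1]
  have h2 : (2 : ℝ) ^ totalWeight K ≤ 2 ^ D := by
    rw [NumberField.totalWeight_eq_finrank]
    exact pow_le_pow_right₀ (by norm_num) hD
  have h3 : (m : ℝ) ^ Module.finrank ℚ K ≤ (A : ℝ) ^ D := by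
    have hmA' : (m : ℝ) ≤ A := by exact_mod_cast hmA
    exact (pow_le_pow_left₀ (by positivity) hmA' _).trans (pow_le_pow_right₀ hA1 hD)
  have h4 : mulHeight₁ (x₁ - x₀) ≤ 2 ^ D * (mulHeight₁ x₀ * mulHeight₁ x₁) := by
    refine (mulHeight₁_sub_le x₁ x₀).trans ?_
    rw [mul_assoc, mul_comm (mulHeight₁ x₁)]
    exact mul_le_mul_of_nonneg_right h2
      (mul_nonneg (mulHeight₁_pos _).le (mulHeight₁_pos _).le)
  calc mulHeight₁ ((x₁ - x₀) * (m : K)⁻¹) ≤ mulHeight₁ (x₁ - x₀) * mulHeight₁ ((m : K)⁻¹) :=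
        mulHeight₁_mul_le _ _
    _ = mulHeight₁ (x₁ - x₀) * mulHeight₁ (m : K) := by rw [mulHeight₁_inv]
    _ ≤ (2 ^ D * (mulHeight₁ x₀ * mulHeight₁ x₁)) * (A : ℝ) ^ D := by
        refine mul_le_mul h4 ((height_nat_le hm).trans h3) (mulHeight₁_pos _).le ?_
        exact mul_nonneg (by positivity)
          (mul_nonneg (mulHeight₁_pos _).le (mulHeight₁_pos _).le)
    _ = _ := by rw [mul_pow]; ring

theorem map_lv {K : Type} [Field K] (φ : K →+* ℂ) {n : ℕ} (a : Fin n → ℤ) (P : Fin n → K) :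
    φ (lv a P) = lv a (fun l => φ (P l)) := by
  simp [lv, map_sum]

theorem lv_pert {K : Type} [Field K] {n : ℕ} (a : Fin n → ℤ) (l : Fin n) (m : ℕ) (P : Fin n → K) :
    lv (pert a l m) P = lv a P + m * P l := by
  have h2 : lv (Pi.single l (m : ℤ)) P = m * P l := by
    rw [lv, Finset.sum_eq_single l]
    · simp
    · intro l' _ hl'
      simp [Pi.single_eq_of_ne hl']
    · intro h
      exact absurd (Finset.mem_univ _) h
  rw [← h2]
  simp [pert, lv, add_mul, Finset.sum_add_distrib]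

/-- a separating quotient of linear forms of large height -/
theorem exists_sep_height (hprod : S_prod) {N s D : ℕ} {K : Type} [Field K] [NumberField K]
    (hD : Module.finrank ℚ K ≤ D) (φ : K →+* ℂ) (P : Fin (N + 1) → K)
    {ι : Type} [Fintype ι] (hs : Fintype.card ι ≤ s)
    (p : ι → Fin (N + 1) → ℂ) (h0 : ∀ i, p i ≠ 0) (hp : ∀ i j, i ≠ j → ∀ c : ℂ, p i ≠ c • p j)
    (i₀ : ι) (hi₀ : p i₀ = fun l => φ (P l)) :
    ∃ a b : Fin (N + 1) → ℤ, (∀ l, 0 ≤ a l ∧ a l ≤ bd N s) ∧ (∀ l, 0 ≤ b l ∧ b l ≤ bd N s) ∧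
      (∀ i, lv b (p i) ≠ 0) ∧ (Function.Injective fun i => lv a (p i) / lv b (p i)) ∧
      mulHeight P ≤ ((2 * bd N s : ℝ) ^ D * mulHeight₁ (lv a P / lv b P) ^ 2) ^ (N + 1) := by
  obtain ⟨b, hb, hV, a, ha, hinj, hpert⟩ := exists_sep hs p h0 hp
  have hv : lv b P ≠ 0 := by
    intro h
    have h1 := hV i₀
    rw [hi₀, ← map_lv φ, h, map_zero] at h1
    exact h1 rfl
  obtain ⟨l, hl⟩ := exists_coord hprod P (lv b P) hv
  obtain ⟨m, hm1, hmA, hm2, hm3⟩ := hpert l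
  have h1 := height_diff hD hm1 hmA (lv a P / lv b P) (lv (pert a l m) P / lv b P)
    (P l / lv b P) (by rw [lv_pert]; field_simp)
  have hc : ∀ x y : ℝ, 0 < x → x ≤ y → mulHeight₁ (P l / lv b P) ≤ (2 * bd N s : ℝ) ^ D * (x * y) →
      mulHeight P ≤ ((2 * bd N s : ℝ) ^ D * y ^ 2) ^ (N + 1) := by
    intro x y hx hxy h2
    refine hl.trans (pow_le_pow_left₀ (mulHeight₁_pos _).le (h2.trans ?_) _)
    have h3 : x * y ≤ y ^ 2 := by rw [sq]; exact mul_le_mul_of_nonneg_right hxy (hx.le.trans hxy)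
    exact mul_le_mul_of_nonneg_left h3 (by positivity)
  rcases le_total (mulHeight₁ (lv a P / lv b P)) (mulHeight₁ (lv (pert a l m) P / lv b P)) with h | h
  · exact ⟨pert a l m, b, hm2, hb, hV, hm3, hc _ _ (mulHeight₁_pos _) h h1⟩
  · exact ⟨a, b, ha, hb, hV, hinj, hc _ _ (mulHeight₁_pos _) h (by rw [mul_comm (mulHeight₁ (lv (pert a l m) P / lv b P))]; exact h1)⟩

theorem nzS_gain (hroot : S_root) (hprod : S_prod) (N D s B d : ℕ) (hN : 1 ≤ N) (hD : 1 ≤ D)
    (hd : s + 4 * D * (N + 1) * B ≤ d) : ∃ C : ℝ, 0 < C ∧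
    ∀ (K : Type) [Field K] [NumberField K], Module.finrank ℚ K ≤ D → ∀ (φ : K →+* ℂ)
      (P : Fin (N + 1) → K), ∀ (ι : Type) [Fintype ι], Fintype.card ι ≤ s →
      ∀ p : ι → Fin (N + 1) → ℂ, (∀ i, p i ≠ 0) → (∀ i j, i ≠ j → ∀ c : ℂ, p i ≠ c • p j) →
      ∀ i₀, p i₀ = (fun l => φ (P l)) → ∀ H : ℕ, 1 ≤ H →
      mulHeight P ≤ (H : ℝ) ^ (4 * D * (N + 1)) →
      (nzS d (2 * H) p : ℝ) * mulHeight P ^ B ≤
        C * (H : ℝ) ^ (Fintype.card (E (N + 1) d) - Fintype.card ι) := by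
  obtain ⟨c₀, hc₀⟩ := exists_mono_bound (N + 1) d (bd N s)
  have hM := card_E_ge N d hN
  set A := bd N s with hA
  have hA1 : 1 ≤ A := by rw [hA, bd]; omega
  have hAR : (1 : ℝ) ≤ A := by exact_mod_cast hA1
  refine ⟨(5 + 2 * (d + 1) * c₀) ^ Fintype.card (E (N + 1) d) * 8 ^ (d + 1) *
    (8 * A * (d + 1)) ^ (d + 1), by positivity, ?_⟩
  intro K _ _ hK φ P ι _ hι p h0 hp i₀ hi₀ H hH hX
  obtain ⟨a, b, ha, hb, hV, hinj, hht⟩ := exists_sep_height hprod hK φ P hι p h0 hp i₀ hi₀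
  rw [← hA] at ha hb hht
  set x : K := lv a P / lv b P with hx
  have hφx : φ x = lv a (p i₀) / lv b (p i₀) := by
    rw [hx, map_div₀, map_lv, map_lv, hi₀]
  have hHR : (1 : ℝ) ≤ H := by exact_mod_cast hH
  have hX1 : 1 ≤ mulHeight P := one_le_mulHeight P
  set X := mulHeight P with hXd
  have hX0 : 0 < X := by linarith
  have hdR : (1 : ℝ) ≤ (d : ℝ) + 1 := by
    have : (0 : ℝ) ≤ d := Nat.cast_nonneg _
    linarith
  -- the root
  set e : ℕ := 4 * D * (N + 1) with he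
  have he0 : e ≠ 0 := by
    rw [he]
    positivity
  obtain ⟨r, hr⟩ : ∃ r : ℝ, r = X ^ (1 / (e : ℝ)) := ⟨_, rfl⟩
  have hr1 : 1 ≤ r := by
    rw [hr]
    exact Real.one_le_rpow hX1 (by positivity)
  have hr0 : 0 < r := by linarith
  have hre : r ^ e = X := by
    rw [hr, ← Real.rpow_natCast, ← Real.rpow_mul hX0.le, one_div_mul_cancel, Real.rpow_one]
    exact_mod_cast he0
  have hrH : r ≤ H := by
    rw [← hre] at hX
    exact le_of_pow_le_pow_left₀ he0 (by positivity) hX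
  obtain ⟨w, hw⟩ : ∃ w : ℕ, w = ⌈r / (8 * A * (d + 1))⌉₊ := ⟨_, rfl⟩
  have hden : (0 : ℝ) < 8 * A * (d + 1) := by positivity
  have hden1 : (1 : ℝ) ≤ 8 * A * (d + 1) := by nlinarith
  have hw1 : 1 ≤ w := by
    rw [hw, Nat.one_le_ceil_iff]
    positivity
  have hwr : r ≤ (8 * A * (d + 1)) * w := by
    have h1 := Nat.le_ceil (r / (8 * A * (d + 1)))
    rw [← hw, div_le_iff₀ hden] at h1
    linarith
  have hwlt : (w : ℝ) - 1 < r / (8 * A * (d + 1)) := by
    have := Nat.ceil_lt_add_one (show 0 ≤ r / (8 * A * (d + 1)) by positivity)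
    rw [← hw] at this
    linarith
  have hw2H : w ≤ 2 * H := by
    have h1 : r / (8 * A * (d + 1)) ≤ H := (div_le_self hr0.le hden1).trans hrH
    have h2 : (w : ℝ) < H + 1 := by linarith
    have h3 : w < H + 1 := by exact_mod_cast h2
    omega
  have hno : ∀ h : Fin (d + 1) → ℤ, (∀ k, |(h k : ℝ)| ≤ (d + 1) * ((w : ℝ) - 1)) →
      (∀ i, ∑ k, (h k : ℂ) * (lv a (p i) / lv b (p i)) ^ (k : ℕ) = 0) → h = 0 := by
    intro h hh hz
    by_contra hne
    obtain ⟨Z, hZ⟩ : ∃ Z : ℕ, Z = (d + 1) * (w - 1) := ⟨_, rfl⟩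
    have hZR : (Z : ℝ) = (d + 1) * ((w : ℝ) - 1) := by
      rw [hZ]
      push_cast [Nat.cast_sub hw1]
      ring
    have hbZ : ∀ k, |h k| ≤ Z := by
      intro k
      have := hh k
      rw [← hZR] at this
      exact_mod_cast this
    have hZ1 : 1 ≤ Z := by
      by_contra hZ0
      have hZ0' : Z = 0 := by omega
      apply hne
      funext k
      have := hbZ k
      rw [hZ0', Nat.cast_zero] at this
      exact abs_eq_zero.mp (le_antisymm this (abs_nonneg _))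
    have hZR1 : (1 : ℝ) ≤ Z := by exact_mod_cast hZ1
    have hzK : ∑ k, (h k : K) * x ^ (k : ℕ) = 0 := by
      have h1 := hz i₀
      rw [← hφx] at h1
      apply φ.injective
      rw [map_zero, map_sum, ← h1]
      exact Finset.sum_congr rfl fun k _ => by rw [map_mul, map_pow, map_intCast]
    have h1 := hroot K d Z h x hZ1 hne hbZ hzK
    have h2 : mulHeight₁ x ≤ (2 * (Z : ℝ) ^ 2) ^ D := by
      refine h1.trans (pow_le_pow_right₀ ?_ hK)
      nlinarith
    have h3 : 8 * A * (Z : ℝ) < r := by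
      rw [hZR]
      calc 8 * A * ((d + 1) * ((w : ℝ) - 1)) = (8 * A * (d + 1)) * ((w : ℝ) - 1) := by ring
        _ < (8 * A * (d + 1)) * (r / (8 * A * (d + 1))) := by gcongr
        _ = r := by field_simp
    have h4 : 8 * A * (Z : ℝ) ^ 4 < r ^ 4 := by
      have h5 : (Z : ℝ) < r := by nlinarith
      have h6 : (Z : ℝ) ^ 3 ≤ r ^ 3 := pow_le_pow_left₀ (by positivity) h5.le 3
      calc 8 * A * (Z : ℝ) ^ 4 = (8 * A * (Z : ℝ)) * (Z : ℝ) ^ 3 := by ring
        _ ≤ (8 * A * (Z : ℝ)) * r ^ 3 := mul_le_mul_of_nonneg_left h6 (by positivity)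
        _ < r * r ^ 3 := mul_lt_mul_of_pos_right h3 (by positivity)
        _ = r ^ 4 := by ring
    have h7 : X < X := by
      calc X ≤ ((2 * A : ℝ) ^ D * mulHeight₁ x ^ 2) ^ (N + 1) := hht
        _ ≤ ((2 * A : ℝ) ^ D * ((2 * (Z : ℝ) ^ 2) ^ D) ^ 2) ^ (N + 1) := by
            have := (mulHeight₁_pos x).le
            gcongr
        _ = (8 * A * (Z : ℝ) ^ 4) ^ (D * (N + 1)) := by
            rw [← pow_mul, mul_comm D 2, pow_mul (2 * (Z : ℝ) ^ 2), ← mul_pow, ← pow_mul]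
            congr 1
            ring
        _ < (r ^ 4) ^ (D * (N + 1)) := by
            refine pow_lt_pow_left₀ h4 (by positivity) ?_
            positivity
        _ = X := by
            rw [← pow_mul, ← hre, he]
            congr 1
            ring
    exact lt_irrefl _ h7
  have h1 := nzS_le hH a b (hc₀ a b ha hb) p hV hinj (by omega) (by omega) hw1 hw2H hno
  set σ := Fintype.card ι with hσ
  have h2 : X ^ B ≤ (8 * A * (d + 1)) ^ (d + 1) * (w : ℝ) ^ (d + 1 - σ) := by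
    calc X ^ B = r ^ (e * B) := by rw [← hre, ← pow_mul]
      _ ≤ r ^ (d + 1 - σ) := pow_le_pow_right₀ hr1 (by omega)
      _ ≤ ((8 * A * (d + 1)) * w) ^ (d + 1 - σ) := pow_le_pow_left₀ hr0.le hwr _
      _ = (8 * A * (d + 1)) ^ (d + 1 - σ) * (w : ℝ) ^ (d + 1 - σ) := mul_pow _ _ _
      _ ≤ _ := by
          refine mul_le_mul_of_nonneg_right ?_ (by positivity)
          exact pow_le_pow_right₀ hden1 (Nat.sub_le _ _)
  calc (nzS d (2 * H) p : ℝ) * X ^ B
      ≤ (nzS d (2 * H) p : ℝ) * ((8 * A * (d + 1)) ^ (d + 1) * (w : ℝ) ^ (d + 1 - σ)) :=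
        mul_le_mul_of_nonneg_left h2 (Nat.cast_nonneg _)
    _ = ((nzS d (2 * H) p : ℝ) * (w : ℝ) ^ (d + 1 - σ)) * (8 * A * (d + 1)) ^ (d + 1) := by ring
    _ ≤ (((5 + 2 * (d + 1) * c₀) ^ Fintype.card (E (N + 1) d) * 8 ^ (d + 1)) *
        (H : ℝ) ^ (Fintype.card (E (N + 1) d) - σ)) * (8 * A * (d + 1)) ^ (d + 1) :=
        mul_le_mul_of_nonneg_right h1 (by positivity)
    _ = _ := by ring

end Pool.Agent.R414.EA
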