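import Pool.Agent.R414.EA.Upper

/-!
# The lower bound for the number of systems with several preperiodic points
-/

set_option autoImplicit false

open Finset MvPolynomial
open Pool.Agent.W276.GE Pool.Agent.W376.GE

noncomputable section

namespace Pool.Agent.R414.EA

/-- many forms vanish at given integral points -/
theorem nz_lower {n : ℕ} (d k : ℕ) (x : Fin k → Fin n → ℤ) (hk : k ≤ Fintype.card (E n d)) :
    ∃ c : ℝ, 0 < c ∧ ∀ T : ℕ, 1 ≤ T → c * (T : ℝ) ^ (Fintype.card (E n d) - k) ≤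
      (((box n d (2 * T)).filter fun g => ∀ i, ev g (x i) = 0).card : ℝ) := by
  classical
  set M := Fintype.card (E n d) with hM
  let C₀ : ℕ := ∑ i, ∑ α : E n d, (∏ l, x i l ^ α.1 l).natAbs
  refine ⟨1 / (2 * C₀ + 1 : ℝ) ^ k, by positivity, fun T hT => ?_⟩
  set Z := (box n d (2 * T)).filter fun g => ∀ i, ev g (x i) = 0 with hZ
  have hev : ∀ g ∈ box n d T, ∀ i, |ev g (x i)| ≤ ((C₀ * T : ℕ) : ℤ) := by
    intro g hg i
    rw [mem_box] at hg
    calc |ev g (x i)| ≤ ∑ α : E n d, |((g α : ℤ) : ℤ) * ∏ l, x i l ^ α.1 l| :=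
          Finset.abs_sum_le_sum_abs _ _
      _ ≤ ∑ α : E n d, (T : ℤ) * ((∏ l, x i l ^ α.1 l).natAbs : ℤ) := by
          refine Finset.sum_le_sum fun α _ => ?_
          rw [abs_mul, Int.abs_eq_natAbs (∏ l, x i l ^ α.1 l)]
          exact mul_le_mul_of_nonneg_right (hg α) (by positivity)
      _ = (T : ℤ) * ((∑ α : E n d, (∏ l, x i l ^ α.1 l).natAbs : ℕ) : ℤ) := by
          rw [← Finset.mul_sum]
          push_cast
          rfl
      _ ≤ (T : ℤ) * (C₀ : ℤ) := by
          refine mul_le_mul_of_nonneg_left ?_ (by positivity)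
          have h1 : (∑ α : E n d, (∏ l, x i l ^ α.1 l).natAbs) ≤ C₀ :=
            Finset.single_le_sum (f := fun i => ∑ α : E n d, (∏ l, x i l ^ α.1 l).natAbs)
              (fun i _ => Nat.zero_le _) (Finset.mem_univ i)
          exact_mod_cast h1
      _ = _ := by push_cast; ring
  have h1 : (box n d T).card ≤ Z.card * (2 * (C₀ * T) + 1) ^ k := by
    have h2 : (Fintype.piFinset fun _ : Fin k =>
        Finset.Icc (-((C₀ * T : ℕ) : ℤ)) ((C₀ * T : ℕ) : ℤ)).card = (2 * (C₀ * T) + 1) ^ k := by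
      simp only [Fintype.card_piFinset, Int.card_Icc, Finset.prod_const, Finset.card_univ,
        Fintype.card_fin]
      congr 1
      omega
    rw [← h2]
    refine Finset.card_le_mul_card_image_of_maps_to (f := fun g => fun i => ev g (x i)) ?_ _ ?_
    · intro g hg
      rw [Fintype.mem_piFinset]
      intro i
      rw [Finset.mem_Icc]
      exact abs_le.mp (hev g hg i)
    · intro v _
      rcases Finset.eq_empty_or_nonempty
        ((box n d T).filter fun g => (fun i => ev g (x i)) = v) with h | ⟨g₀, hg₀⟩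
      · rw [h, Finset.card_empty]
        exact Nat.zero_le _
      · rw [Finset.mem_filter] at hg₀
        refine Finset.card_le_card_of_injOn (fun g => g - g₀) ?_ ?_
        · intro g hg
          rw [Finset.mem_coe, Finset.mem_filter] at hg
          rw [Finset.mem_coe, hZ, Finset.mem_filter]
          refine ⟨?_, fun i => ?_⟩
          · have := sub_mem_box hg.1 hg₀.1
            rwa [← two_mul] at this
          · rw [ev_sub, congrFun hg.2 i, congrFun hg₀.2 i, sub_self]
        · intro g _ g' _ h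
          exact sub_left_injective h
  rw [card_box, ← hM] at h1
  have hT1 : (1 : ℝ) ≤ T := by exact_mod_cast hT
  have h2 : (T : ℝ) ^ M ≤ Z.card * ((2 * C₀ + 1) * T : ℝ) ^ k := by
    have h3 : ((2 * T + 1 : ℕ) : ℝ) ^ M ≤ (Z.card : ℝ) * ((2 * (C₀ * T) + 1 : ℕ) : ℝ) ^ k := by
      exact_mod_cast h1
    calc (T : ℝ) ^ M ≤ ((2 * T + 1 : ℕ) : ℝ) ^ M := by
          push_cast
          gcongr
          linarith
      _ ≤ _ := h3
      _ ≤ _ := by
          push_cast
          gcongr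
          nlinarith [Nat.cast_nonneg (α := ℝ) C₀]
  have h3 : (T : ℝ) ^ M = (T : ℝ) ^ (M - k) * (T : ℝ) ^ k := by
    rw [← pow_add]
    congr 1
    omega
  rw [h3, mul_pow] at h2
  have h4 : (T : ℝ) ^ (M - k) * (T : ℝ) ^ k ≤ (Z.card * (2 * C₀ + 1 : ℝ) ^ k) * (T : ℝ) ^ k := by
    linarith [h2, mul_assoc (Z.card : ℝ) ((2 * C₀ + 1 : ℝ) ^ k) ((T : ℝ) ^ k)]
  have h5 := le_of_mul_le_mul_right h4 (by positivity)
  rw [one_div, inv_mul_le_iff₀ (by positivity)]
  linarith

/-- the points `(1 : 2 i : 0 : ... : 0)` -/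
def pt {N : ℕ} (i : ℕ) : Fin (N + 2) → ℤ := fun l => if l = 0 then 1 else if l = 1 then 2 * i else 0

/-- the base system -/
def base (N d k : ℕ) (l : Fin (N + 2)) : MvPolynomial (Fin (N + 2)) ℤ :=
  if l = 1 then (∏ i ∈ Finset.range k, (X 1 - C (2 * (i : ℤ)) * X 0)) * X 1 ^ (d - k) else X l ^ d

theorem base_hom {N d k : ℕ} (hk : k ≤ d) (l : Fin (N + 2)) : (base N d k l).IsHomogeneous d := by
  unfold base
  split_ifs with h
  · have h1 : (∏ i ∈ Finset.range k, (X 1 - C (2 * (i : ℤ)) * X 0 :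
        MvPolynomial (Fin (N + 2)) ℤ)).IsHomogeneous (∑ _i ∈ Finset.range k, 1) := by
      refine IsHomogeneous.prod _ _ _ fun i _ => ?_
      refine (isHomogeneous_X _ _).sub ?_
      simpa using (isHomogeneous_C (Fin (N + 2)) (2 * (i : ℤ))).mul (isHomogeneous_X ℤ 0)
    have h2 := h1.mul ((isHomogeneous_X ℤ (1 : Fin (N + 2))).pow (d - k))
    have h3 : (∑ _i ∈ Finset.range k, 1) + 1 * (d - k) = d := by
      rw [Finset.sum_const, Finset.card_range, smul_eq_mul]
      omega
    rwa [h3] at h2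
  · have h2 := (isHomogeneous_X ℤ l).pow d
    rwa [one_mul] at h2

theorem base_ev {N d k : ℕ} (hd : 1 ≤ d) (hk : k ≤ d) (l : Fin (N + 2)) (hl : l ≠ 0) (i : ℕ)
    (hi : i < k) : ev (cf d (base N d k l)) (pt i : Fin (N + 2) → ℤ) = 0 := by
  rw [← aeval_eq_ev (base_hom hk l)]
  unfold base
  split_ifs with h
  · rw [map_mul, map_prod, Finset.prod_eq_zero (Finset.mem_range.mpr hi), zero_mul]
    simp [pt]
  · simp [pt, hl, h, show d ≠ 0 by omega]

theorem base_even {N d k : ℕ} (hk : k ≤ d) (l : Fin (N + 2)) :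
    ∃ Q : MvPolynomial (Fin (N + 2)) ℤ, base N d k l = X l ^ d + 2 * Q := by
  unfold base
  split_ifs with h
  · subst h
    have h1 : ∀ s : Finset ℕ, ∃ Q : MvPolynomial (Fin (N + 2)) ℤ,
        ∏ i ∈ s, (X 1 - C (2 * (i : ℤ)) * X 0) = X 1 ^ s.card + 2 * Q := by
      classical
      intro s
      induction s using Finset.induction_on with
      | empty => exact ⟨0, by simp⟩
      | insert a s ha ih =>
        obtain ⟨Q, hQ⟩ := ih
        rw [Finset.prod_insert ha, hQ, Finset.card_insert_of_notMem ha]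
        refine ⟨X 1 * Q - C (a : ℤ) * X 0 * (X 1 ^ s.card + 2 * Q), ?_⟩
        have h2 : (C (2 * (a : ℤ)) : MvPolynomial (Fin (N + 2)) ℤ) = 2 * C (a : ℤ) := by
          rw [C_mul]
          congr 1
        rw [h2]
        ring
    obtain ⟨Q, hQ⟩ := h1 (Finset.range k)
    refine ⟨Q * X 1 ^ (d - k), ?_⟩
    rw [hQ, Finset.card_range, add_mul, ← pow_add]
    have h3 : k + (d - k) = d := by omega
    rw [h3]
    ring
  · exact ⟨0, by simp⟩

theorem cf_X_pow {n d : ℕ} (l : Fin n) (α : E n d) :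
    cf d (X l ^ d : MvPolynomial (Fin n) ℤ) α = if α = pw d l then 1 else 0 := by
  classical
  rw [cf, coeff_X_pow]
  have h1 : fs (pw d l : E n d) = Finsupp.single l d := by
    ext i
    rw [fs_apply, pw_val, Finsupp.single_apply, Pi.single_apply]
    simp only [eq_comm]
  rw [← h1]
  by_cases h : α = pw d l
  · rw [if_pos h, if_pos (by rw [h])]
  · rw [if_neg h, if_neg fun h' => h (fs_injective h'.symm)]

theorem base_mod {N d k : ℕ} (hk : k ≤ d) (l : Fin (N + 2)) :
    Odd (cf d (base N d k l) (pw d l)) ∧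
      ∀ α, α ≠ pw d l → Even (cf d (base N d k l) α) := by
  obtain ⟨Q, hQ⟩ := base_even (N := N) (d := d) hk l
  have h1 : ∀ α : E (N + 2) d, cf d (base N d k l) α =
      (if α = pw d l then 1 else 0) + 2 * Q.coeff (fs α) := by
    intro α
    rw [← cf_X_pow l α, hQ]
    simp only [cf, coeff_add]
    have h2 : (2 * Q : MvPolynomial (Fin (N + 2)) ℤ) = C 2 * Q := by
      congr 1
    rw [h2, coeff_C_mul]
  refine ⟨?_, fun α hα => ?_⟩
  · rw [h1, if_pos rfl]
    exact ⟨Q.coeff (fs (pw d l)), by ring⟩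
  · rw [h1, if_neg hα, zero_add]
    exact ⟨Q.coeff (fs α), by ring⟩

theorem exists_base_bound (N d k : ℕ) : ∃ cD : ℕ, ∀ l, cf d (base N d k l) ∈ box (N + 2) d cD := by
  classical
  refine ⟨Finset.univ.sup fun q : Fin (N + 2) × E (N + 2) d =>
    (cf d (base N d k q.1) q.2).natAbs, fun l => ?_⟩
  rw [mem_box]
  intro α
  rw [Int.abs_eq_natAbs]
  exact_mod_cast Finset.le_sup (f := fun q : Fin (N + 2) × E (N + 2) d =>
    (cf d (base N d k q.1) q.2).natAbs) (Finset.mem_univ (l, α))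

theorem lower_count (N d k : ℕ) (hd : 1 ≤ d) (hk : k ≤ d) : ∃ c : ℝ, 0 < c ∧ ∃ H₀ : ℕ, ∀ H : ℕ,
    H₀ ≤ H → c * (H : ℝ) ^ ((N + 1 + 1) * Fintype.card (E (N + 1 + 1) d) - k * (N + 1)) ≤
      ({F : Fin (N + 2) → E (N + 2) d → ℤ | F ∈ Fb (N + 2) d H ∧ NoZero F ∧
        ∀ l, l ≠ 0 → ∀ i, i < k → ev (F l) (pt i : Fin (N + 2) → ℤ) = 0}.ncard : ℝ) := by
  classical
  have hMd : d + 1 ≤ Fintype.card (E (N + 1 + 1) d) := card_E_ge (N + 1) d (by omega)
  obtain ⟨cD, hcD⟩ := exists_base_bound N d k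
  obtain ⟨c, hc0, hc⟩ := nz_lower (n := N + 2) d k (fun i => pt i.1) (by
    have : Fintype.card (E (N + 2) d) = Fintype.card (E (N + 1 + 1) d) := rfl
    omega)
  set M := Fintype.card (E (N + 2) d) with hM
  set Q := (N + 1 + 1) * M - k * (N + 1) with hQ
  refine ⟨c ^ (N + 1) * (1 / 16) ^ Q, by positivity, 2 * cD + 16, fun H hH => ?_⟩
  set T : ℕ := (H - cD) / 4 with hT
  have hT4 : 4 * T + cD ≤ H := by omega
  have hT1 : 1 ≤ T := by omega
  have hTH : (1 / 16 : ℝ) * H ≤ T := by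
    have h1 : H ≤ 16 * T := by omega
    have h2 : (H : ℝ) ≤ 16 * T := by exact_mod_cast h1
    linarith
  let Z : Finset (E (N + 2) d → ℤ) :=
    (box (N + 2) d (2 * T)).filter fun g => ∀ i : Fin k, ev g (pt i.1 : Fin (N + 2) → ℤ) = 0
  let S : Fin (N + 2) → Finset (E (N + 2) d → ℤ) := fun l => if l = 0 then box (N + 2) d (2 * T) else Z
  have hSb : ∀ l, ∀ g ∈ S l, g ∈ box (N + 2) d (2 * T) := by
    intro l g hg
    simp only [S] at hg
    split_ifs at hg
    · exact hg
    · exact (Finset.mem_filter.mp hg).1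
  have hcard : (c ^ (N + 1)) * (T : ℝ) ^ Q ≤ ((Fintype.piFinset S).card : ℝ) := by
    rw [Fintype.card_piFinset, Nat.cast_prod, ← Finset.mul_prod_erase _ _ (Finset.mem_univ 0)]
    have h1 : ((S 0).card : ℝ) = ((box (N + 2) d (2 * T)).card : ℝ) := by simp [S]
    have h2 : ∏ l ∈ Finset.univ.erase (0 : Fin (N + 2)), ((S l).card : ℝ) = (Z.card : ℝ) ^ (N + 1) := by
      have h3 : ∀ l ∈ Finset.univ.erase (0 : Fin (N + 2)), ((S l).card : ℝ) = (Z.card : ℝ) := by
        intro l hl
        simp only [S, if_neg (Finset.ne_of_mem_erase hl)]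
      rw [Finset.prod_congr rfl h3, Finset.prod_const,
        Finset.card_erase_of_mem (Finset.mem_univ _), Finset.card_univ, Fintype.card_fin]
      rfl
    rw [h1, h2, card_box, ← hM]
    have h4 := hc T hT1
    have h5 : (T : ℝ) ^ M ≤ (((2 * (2 * T) + 1) ^ M : ℕ) : ℝ) := by
      push_cast
      gcongr
      have : (0 : ℝ) ≤ T := Nat.cast_nonneg _
      linarith
    have h6 : (c * (T : ℝ) ^ (M - k)) ^ (N + 1) ≤ (Z.card : ℝ) ^ (N + 1) :=
      pow_le_pow_left₀ (by positivity) h4 _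
    have h7 : (T : ℝ) ^ Q = (T : ℝ) ^ M * ((T : ℝ) ^ (M - k)) ^ (N + 1) := by
      rw [← pow_mul, ← pow_add]
      congr 1
      rw [hQ, Nat.sub_mul]
      have h8 : k * (N + 1) ≤ M * (N + 1) := Nat.mul_le_mul_right _ (by omega)
      have h9 : (N + 1 + 1) * M = M + M * (N + 1) := by ring
      omega
    calc (c ^ (N + 1)) * (T : ℝ) ^ Q = (T : ℝ) ^ M * (c * (T : ℝ) ^ (M - k)) ^ (N + 1) := by
          rw [h7, mul_pow]; ring
      _ ≤ _ := mul_le_mul h5 h6 (by positivity) (by positivity)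
  have hinj : ((Fintype.piFinset S).card : ℝ) ≤
      ({F : Fin (N + 2) → E (N + 2) d → ℤ | F ∈ Fb (N + 2) d H ∧ NoZero F ∧
        ∀ l, l ≠ 0 → ∀ i, i < k → ev (F l) (pt i : Fin (N + 2) → ℤ) = 0}.ncard : ℝ) := by
    have h1 : (Fintype.piFinset S).card ≤
        {F : Fin (N + 2) → E (N + 2) d → ℤ | F ∈ Fb (N + 2) d H ∧ NoZero F ∧
        ∀ l, l ≠ 0 → ∀ i, i < k → ev (F l) (pt i : Fin (N + 2) → ℤ) = 0}.ncard := by
      rw [← Set.ncard_coe_finset]
      refine Set.ncard_le_ncard_of_injOn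
        (fun G l => cf d (base N d k l) + (2 : ℤ) • G l) ?_ ?_
        ((Finset.finite_toSet (Fb (N + 2) d H)).subset fun F h => h.1)
      · intro G hG
        rw [Finset.mem_coe, Fintype.mem_piFinset] at hG
        refine ⟨?_, ?_, ?_⟩
        · rw [mem_Fb]
          intro l
          rw [mem_box]
          intro α
          have h2 := mem_box.mp (hSb l _ (hG l)) α
          have h3 := mem_box.mp (hcD l) α
          rw [Pi.add_apply, Pi.smul_apply, smul_eq_mul]
          have h4 : |2 * G l α| ≤ 2 * (2 * T : ℕ) := by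
            rw [abs_mul]
            exact mul_le_mul_of_nonneg_left h2 (by norm_num)
          have h5 : ((4 * T + cD : ℕ) : ℤ) ≤ H := by exact_mod_cast hT4
          push_cast at h4 h5
          calc |cf d (base N d k l) α + 2 * G l α| ≤ |cf d (base N d k l) α| + |2 * G l α| :=
                abs_add_le _ _
            _ ≤ cD + 2 * (2 * T) := add_le_add h3 h4
            _ ≤ H := by linarith
        · refine noZero_of_mod_two hd _ (fun l => ?_) (fun l α hα => ?_)
          · rw [Pi.add_apply, Pi.smul_apply, smul_eq_mul]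
            exact (base_mod hk l).1.add_even (even_two_mul _)
          · rw [Pi.add_apply, Pi.smul_apply, smul_eq_mul]
            exact ((base_mod hk l).2 α hα).add (even_two_mul _)
        · intro l hl i hi
          rw [ev_add, ev_zsmul, base_ev hd hk l hl i hi, zero_add]
          have h2 := hG l
          simp only [S, if_neg hl, Z, Finset.mem_filter] at h2
          rw [h2.2 ⟨i, hi⟩, mul_zero]
      · intro G _ G' _ h
        funext l
        have h1 := congrFun h l
        simp only at h1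
        have h2 := add_left_cancel h1
        funext α
        have h3 := congrFun h2 α
        simp only [Pi.smul_apply, smul_eq_mul] at h3
        linarith
    exact_mod_cast h1
  refine le_trans ?_ (hcard.trans hinj)
  rw [mul_assoc, ← mul_pow]
  gcongr

theorem many_of_pt {N d k : ℕ} (hk : 1 ≤ k)
    {F : Fin (N + 2) → E (N + 2) d → ℤ} (hF : NoZero F)
    (h : ∀ l, l ≠ 0 → ∀ i, i < k → ev (F l) (pt i : Fin (N + 2) → ℤ) = 0) :
    ∃ p : Fin k → Fin (N + 2) → ℂ, (∀ i, p i ≠ 0) ∧ (∀ i j, i ≠ j → ∀ c : ℂ, p i ≠ c • p j) ∧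
      (∀ i l, ∃ z : ℤ, p i l = z) ∧
      ∀ i, ∃ m n : ℕ, m < n ∧ ∃ c : ℂ, c ≠ 0 ∧
        (fm ℂ (N := N + 1) F)^[n] (p i) = c • (fm ℂ (N := N + 1) F)^[m] (p i) := by
  let p : Fin k → Fin (N + 2) → ℂ := fun i l => ((pt i.1 : Fin (N + 2) → ℤ) l : ℂ)
  have hp0 : ∀ i, p i ≠ 0 := by
    intro i h0
    have := congrFun h0 0
    simp [p, pt] at this
  have he : ∀ i, fm ℂ (N := N + 1) F (p i) = ev (F 0) (p i) • p ⟨0, hk⟩ := by
    intro i
    funext l
    rw [Pi.smul_apply, smul_eq_mul]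
    show ev (F l) (p i) = _
    by_cases hl : l = 0
    · subst hl
      simp [p, pt]
    · have h1 := congrArg (Int.castRingHom ℂ) (h l hl i.1 i.2)
      rw [ev_map, map_zero] at h1
      have h2 : (fun l => (Int.castRingHom ℂ) ((pt i.1 : Fin (N + 2) → ℤ) l)) = p i := rfl
      rw [h2] at h1
      rw [h1]
      simp [p, pt, hl]
  have hne : ∀ i, ev (F 0) (p i) ≠ 0 := by
    intro i h0
    have h1 := image_ne_zero (N := N + 1) hF (RingHom.id ℂ) (hp0 i)
    apply h1
    have h2 := he i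
    rw [h0, zero_smul] at h2
    exact h2
  refine ⟨p, hp0, ?_, fun i l => ⟨_, rfl⟩, ?_⟩
  · intro i j hij c hc
    apply hij
    have h0 := congrFun hc 0
    have h1 := congrFun hc 1
    simp only [p, pt, Pi.smul_apply, smul_eq_mul, if_true, Int.cast_one, mul_one] at h0
    subst h0
    simp only [p, pt, Pi.smul_apply, smul_eq_mul, one_mul] at h1
    have h2 : (1 : Fin (N + 2)) ≠ 0 := by
      intro h
      have := congrArg Fin.val h
      simp at this
    simp only [if_neg h2, if_true] at h1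
    apply Fin.ext
    have h3 : (2 * (i.1 : ℤ)) = 2 * (j.1 : ℤ) := by exact_mod_cast h1
    omega
  · intro i
    refine ⟨1, 2, by norm_num, ev (F 0) (p i) ^ d * ev (F 0) (p ⟨0, hk⟩) / ev (F 0) (p i),
      ?_, ?_⟩
    · exact div_ne_zero (mul_ne_zero (pow_ne_zero _ (hne i)) (hne _)) (hne i)
    · have h1 : (fm ℂ (N := N + 1) F)^[2] (p i) = fm ℂ (N := N + 1) F (fm ℂ (N := N + 1) F (p i)) := rfl
      have h2 : (fm ℂ (N := N + 1) F)^[1] (p i) = fm ℂ (N := N + 1) F (p i) := rfl
      rw [h1, h2, he i, fm_smul, he ⟨0, hk⟩, smul_smul, smul_smul]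
      congr 1
      have := hne i
      field_simp

end Pool.Agent.R414.EA
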