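import Pool.Agent.R414.EA.One
import Pool.Agent.W276.GE.Poly

/-!
# Integral forms which vanish at several points
-/

set_option autoImplicit false

open Finset MvPolynomial
open Pool.Agent.W276.GE

noncomputable section

namespace Pool.Agent.R414.EA

/-- the number of forms with coefficients at most `T` which vanish at all the points `p i` -/
def nzS {ι : Type} {n : ℕ} (t T : ℕ) (p : ι → Fin n → ℂ) : ℕ :=
  {g : E n t → ℤ | g ∈ box n t T ∧ ∀ i, ev g (p i) = 0}.ncard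

theorem nzS_finite {ι : Type} {n : ℕ} (t T : ℕ) (p : ι → Fin n → ℂ) :
    {g : E n t → ℤ | g ∈ box n t T ∧ ∀ i, ev g (p i) = 0}.Finite :=
  (box n t T).finite_toSet.subset fun _ h => h.1

/-- the value of the linear form with coefficients `a` -/
def lv {R : Type} [CommRing R] {n : ℕ} (a : Fin n → ℤ) (x : Fin n → R) : R := ∑ i, (a i : R) * x i

/-- the linear form with coefficients `a` -/
def lin {n : ℕ} (a : Fin n → ℤ) : MvPolynomial (Fin n) ℤ := ∑ i, C (a i) * X i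

theorem lin_hom {n : ℕ} (a : Fin n → ℤ) : (lin a).IsHomogeneous 1 := by
  refine IsHomogeneous.sum _ _ _ fun i _ => ?_
  simpa using (isHomogeneous_C (Fin n) (a i)).mul (isHomogeneous_X ℤ i)

theorem aeval_lin {R : Type} [CommRing R] {n : ℕ} (a : Fin n → ℤ) (x : Fin n → R) :
    aeval x (lin a) = lv a x := by
  simp [lin, lv]

/-- the coefficients of the form `U ^ k V ^ (d - k)` -/
def mono {n : ℕ} (d : ℕ) (a b : Fin n → ℤ) (k : Fin (d + 1)) : E n d → ℤ :=
  cf d (lin a ^ (k : ℕ) * lin b ^ (d - k))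

theorem ev_mono {R : Type} [CommRing R] {n d : ℕ} (a b : Fin n → ℤ) (k : Fin (d + 1))
    (x : Fin n → R) : ev (mono d a b k) x = lv a x ^ (k : ℕ) * lv b x ^ (d - k) := by
  have h1 : (lin a ^ (k : ℕ) * lin b ^ (d - k)).IsHomogeneous d := by
    have h2 := ((lin_hom a).pow (k : ℕ)).mul ((lin_hom b).pow (d - (k : ℕ)))
    have h3 : 1 * (k : ℕ) + 1 * (d - (k : ℕ)) = d := by
      have := k.2
      omega
    rwa [h3] at h2
  rw [mono, ← aeval_eq_ev h1, map_mul, map_pow, map_pow, aeval_lin, aeval_lin]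

theorem exists_mono_bound (n d A : ℕ) : ∃ c₀ : ℕ, ∀ a b : Fin n → ℤ,
    (∀ i, 0 ≤ a i ∧ a i ≤ A) → (∀ i, 0 ≤ b i ∧ b i ≤ A) → ∀ (k : Fin (d + 1)) (α : E n d),
      |mono d a b k α| ≤ c₀ := by
  classical
  let 𝒜 : Finset (Fin n → ℤ) := Fintype.piFinset fun _ => Finset.Icc 0 (A : ℤ)
  let f : (Fin n → ℤ) × (Fin n → ℤ) × Fin (d + 1) × E n d → ℕ := fun q =>
    (mono d q.1 q.2.1 q.2.2.1 q.2.2.2).natAbs
  refine ⟨(𝒜 ×ˢ 𝒜 ×ˢ Finset.univ).sup f, fun a b ha hb k α => ?_⟩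
  have h1 : (a, b, k, α) ∈ 𝒜 ×ˢ 𝒜 ×ˢ (Finset.univ : Finset (Fin (d + 1) × E n d)) := by
    simp only [Finset.mem_product, Finset.mem_univ, and_true, 𝒜, Fintype.mem_piFinset,
      Finset.mem_Icc]
    exact ⟨ha, hb⟩
  have h2 := Finset.le_sup (f := f) h1
  rw [Int.abs_eq_natAbs]
  exact_mod_cast h2

theorem packing {ι : Type} [Fintype ι] {n d H c₀ : ℕ} (a b : Fin n → ℤ)
    (hc₀ : ∀ (k : Fin (d + 1)) (α : E n d), |mono d a b k α| ≤ c₀) (p : ι → Fin n → ℂ)
    (hb : ∀ i, lv b (p i) ≠ 0) :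
    nzS d (2 * H) p * (2 * H + 1) ^ (d + 1) ≤
      (2 * (2 * H + (d + 1) * c₀ * H) + 1) ^ Fintype.card (E n d) *
        nz1 d (2 * H) (fun i => lv a (p i) / lv b (p i)) := by
  classical
  let x : ι → ℂ := fun i => lv a (p i) / lv b (p i)
  -- the box
  let Bx : Finset (Fin (d + 1) → ℤ) := Fintype.piFinset fun _ => Finset.Icc (-(H : ℤ)) H
  have hBx : Bx.card = (2 * H + 1) ^ (d + 1) := by
    simp only [Bx, Fintype.card_piFinset, Int.card_Icc, Finset.prod_const, Finset.card_univ,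
      Fintype.card_fin]
    congr 1
    omega
  let Φ : (Fin (d + 1) → ℤ) → ι → ℂ := fun g i => ∑ k, (g k : ℂ) * x i ^ (k : ℕ)
  let G : (Fin (d + 1) → ℤ) → E n d → ℤ := fun g => ∑ k, g k • mono d a b k
  have hG : ∀ g i, ev (G g) (p i) = lv b (p i) ^ d * Φ g i := by
    intro g i
    simp only [G, Φ, ev_sum, ev_zsmul, ev_mono, Finset.mul_sum]
    refine Finset.sum_congr rfl fun k _ => ?_
    have h1 : lv b (p i) ^ d = lv b (p i) ^ (k : ℕ) * lv b (p i) ^ (d - (k : ℕ)) := by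
      rw [← pow_add]
      congr 1
      have := k.2
      omega
    rw [h1]
    simp only [x, div_pow]
    have h2 := pow_ne_zero (k : ℕ) (hb i)
    field_simp
  have hGb : ∀ g ∈ Bx, G g ∈ box n d ((d + 1) * c₀ * H) := by
    intro g hg
    rw [mem_box]
    intro α
    simp only [G, Finset.sum_apply, Pi.smul_apply, smul_eq_mul]
    have hg' : ∀ k, |g k| ≤ H := by
      intro k
      have := Fintype.mem_piFinset.mp hg k
      rw [Finset.mem_Icc] at this
      exact abs_le.mpr this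
    calc |∑ k, g k * mono d a b k α| ≤ ∑ k, |g k * mono d a b k α| := Finset.abs_sum_le_sum_abs _ _
      _ ≤ ∑ _k : Fin (d + 1), (H : ℤ) * c₀ := by
          refine Finset.sum_le_sum fun k _ => ?_
          rw [abs_mul]
          exact mul_le_mul (hg' k) (hc₀ k α) (abs_nonneg _) (by positivity)
      _ = _ := by
          rw [Finset.sum_const, Finset.card_univ, Fintype.card_fin, nsmul_eq_mul]
          push_cast
          ring
  -- the values
  set V : Finset (ι → ℂ) := Bx.image Φ with hV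
  have h1 : Bx.card ≤ nz1 d (2 * H) x * V.card := by
    refine Finset.card_le_mul_card_image Bx _ fun v hv => ?_
    obtain ⟨g₀, hg₀, hg₀v⟩ := Finset.mem_image.mp hv
    rw [nz1, ← Set.ncard_coe_finset]
    refine Set.ncard_le_ncard_of_injOn (fun g => g - g₀) ?_ ?_ ?_
    · intro g hg
      rw [Finset.mem_coe, Finset.mem_filter] at hg
      refine ⟨fun k => ?_, fun i => ?_⟩
      · have e1 := Fintype.mem_piFinset.mp hg.1 k
        have e2 := Fintype.mem_piFinset.mp hg₀ k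
        rw [Finset.mem_Icc] at e1 e2
        rw [Pi.sub_apply, abs_le]
        push_cast
        constructor <;> linarith [e1.1, e1.2, e2.1, e2.2]
      · have e1 := congrFun hg.2 i
        have e2 := congrFun hg₀v i
        simp only [Φ] at e1 e2
        simp only [Pi.sub_apply, Int.cast_sub, sub_mul, Finset.sum_sub_distrib]
        rw [e1, e2, sub_self]
    · intro g _ g' _ h
      exact sub_left_injective h
    · refine (Finset.finite_toSet
        (Fintype.piFinset fun _ : Fin (d + 1) => Finset.Icc (-((2 * H : ℕ) : ℤ)) (2 * H : ℕ))).subset ?_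
      rintro g ⟨hg, -⟩
      rw [Finset.mem_coe, Fintype.mem_piFinset]
      intro k
      rw [Finset.mem_Icc]
      exact abs_le.mp (hg k)
  -- packing
  have hch : ∀ v : ι → ℂ, ∃ g : Fin (d + 1) → ℤ, v ∈ V → g ∈ Bx ∧ Φ g = v := by
    intro v
    by_cases hv : v ∈ V
    · obtain ⟨g, hg, hgv⟩ := Finset.mem_image.mp hv
      exact ⟨g, fun _ => ⟨hg, hgv⟩⟩
    · exact ⟨0, fun h => absurd h hv⟩
  choose s hs using hch
  set Z : Set (E n d → ℤ) := {g : E n d → ℤ | g ∈ box n d (2 * H) ∧ ∀ i, ev g (p i) = 0} with hZ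
  have h2 : (Z ×ˢ (V : Set (ι → ℂ))).ncard ≤
      ((box n d (2 * H + (d + 1) * c₀ * H) : Finset (E n d → ℤ)) : Set (E n d → ℤ)).ncard := by
    refine Set.ncard_le_ncard_of_injOn (fun q => q.1 + G (s q.2)) ?_ ?_ (Finset.finite_toSet _)
    · rintro ⟨z, v⟩ ⟨hz, hv⟩
      exact Finset.mem_coe.2 (add_mem_box hz.1 (hGb _ (hs v hv).1))
    · rintro ⟨z, v⟩ ⟨hz, hv⟩ ⟨z', v'⟩ ⟨hz', hv'⟩ h
      simp only at h hz hv hz' hv'
      have h3 : v = v' := by
        funext i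
        have h4 := congrArg (fun g => ev g (p i)) h
        simp only [ev_add] at h4
        rw [hz.2 i, hz'.2 i, zero_add, zero_add, hG, hG, (hs v hv).2, (hs v' hv').2] at h4
        exact mul_left_cancel₀ (pow_ne_zero _ (hb i)) h4
      subst h3
      have h5 : z = z' := add_right_cancel h
      rw [h5]
  rw [Set.ncard_prod, Set.ncard_coe_finset, Set.ncard_coe_finset, card_box] at h2
  have h3 : Z.ncard = nzS d (2 * H) p := rfl
  rw [h3] at h2
  calc nzS d (2 * H) p * (2 * H + 1) ^ (d + 1) ≤ nzS d (2 * H) p * (nz1 d (2 * H) x * V.card) := by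
        rw [← hBx]
        exact Nat.mul_le_mul_left _ h1
    _ = (nzS d (2 * H) p * V.card) * nz1 d (2 * H) x := by ring
    _ ≤ _ := Nat.mul_le_mul_right _ h2

/-- the packing bound, with the gain `w` -/
theorem nzS_le {ι : Type} [Fintype ι] {n d H c₀ : ℕ} (hH : 1 ≤ H) (a b : Fin n → ℤ)
    (hc₀ : ∀ (k : Fin (d + 1)) (α : E n d), |mono d a b k α| ≤ c₀) (p : ι → Fin n → ℂ)
    (hb : ∀ i, lv b (p i) ≠ 0) (hx : Function.Injective fun i => lv a (p i) / lv b (p i))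
    (hι : Fintype.card ι ≤ d + 1) (hM : Fintype.card ι ≤ Fintype.card (E n d)) {w : ℕ}
    (hw : 1 ≤ w) (hwT : w ≤ 2 * H)
    (hno : ∀ h : Fin (d + 1) → ℤ, (∀ k, |(h k : ℝ)| ≤ (d + 1) * ((w : ℝ) - 1)) →
      (∀ i, ∑ k, (h k : ℂ) * (lv a (p i) / lv b (p i)) ^ (k : ℕ) = 0) → h = 0) :
    (nzS d (2 * H) p : ℝ) * (w : ℝ) ^ (d + 1 - Fintype.card ι) ≤
      ((5 + 2 * (d + 1) * c₀) ^ Fintype.card (E n d) * 8 ^ (d + 1)) *
        (H : ℝ) ^ (Fintype.card (E n d) - Fintype.card ι) := by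
  have h1 := packing (H := H) a b hc₀ p hb
  have h2 := one_count (fun i => lv a (p i) / lv b (p i)) hx hι hw hwT hno
  set s := Fintype.card ι with hs
  set M := Fintype.card (E n d) with hMd
  set Z := nzS d (2 * H) p with hZ
  have hH1 : (1 : ℝ) ≤ H := by exact_mod_cast hH
  have hH0 : (0 : ℝ) < H := by linarith
  have hw0 : (0 : ℝ) < w := by exact_mod_cast hw
  have h3 : (Z : ℝ) * (2 * H + 1) ^ (d + 1) ≤
      (2 * (2 * H + (d + 1) * c₀ * H) + 1 : ℝ) ^ M *
        (nz1 d (2 * H) fun i => lv a (p i) / lv b (p i)) := by exact_mod_cast h1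
  have h4 : (Z : ℝ) * (H : ℝ) ^ (d + 1) ≤
      ((5 + 2 * (d + 1) * c₀) * H : ℝ) ^ M * (8 * H / w) ^ (d + 1 - s) := by
    calc (Z : ℝ) * (H : ℝ) ^ (d + 1) ≤ (Z : ℝ) * (2 * H + 1) ^ (d + 1) := by
          gcongr
          linarith
      _ ≤ _ := h3
      _ ≤ _ := by
          have e1 : (2 * (2 * H + (d + 1) * c₀ * H) + 1 : ℝ) ≤ (5 + 2 * (d + 1) * c₀) * H := by
            nlinarith
          have e2 : (4 * ((2 * H : ℕ) : ℝ) / w) = 8 * H / w := by push_cast; ring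
          rw [e2] at h2
          gcongr
  have h5 : (Z : ℝ) * (w : ℝ) ^ (d + 1 - s) * (H : ℝ) ^ (d + 1) ≤
      ((5 + 2 * (d + 1) * c₀) ^ M * 8 ^ (d + 1 - s)) * (H : ℝ) ^ (M - s) * (H : ℝ) ^ (d + 1) := by
    have e1 : (H : ℝ) ^ M * (H : ℝ) ^ (d + 1 - s) = (H : ℝ) ^ (M - s) * (H : ℝ) ^ (d + 1) := by
      rw [← pow_add, ← pow_add]
      congr 1
      omega
    calc (Z : ℝ) * (w : ℝ) ^ (d + 1 - s) * (H : ℝ) ^ (d + 1)
        = ((Z : ℝ) * (H : ℝ) ^ (d + 1)) * (w : ℝ) ^ (d + 1 - s) := by ring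
      _ ≤ (((5 + 2 * (d + 1) * c₀) * H : ℝ) ^ M * (8 * H / w) ^ (d + 1 - s)) *
            (w : ℝ) ^ (d + 1 - s) := mul_le_mul_of_nonneg_right h4 (by positivity)
      _ = (5 + 2 * (d + 1) * c₀ : ℝ) ^ M * 8 ^ (d + 1 - s) *
            ((H : ℝ) ^ M * (H : ℝ) ^ (d + 1 - s)) := by
          rw [div_pow, mul_pow, mul_pow]
          have : (w : ℝ) ^ (d + 1 - s) ≠ 0 := (pow_pos hw0 _).ne'
          field_simp
      _ = _ := by rw [e1]; ring
  have h6 := le_of_mul_le_mul_right h5 (by positivity)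
  refine h6.trans ?_
  have : (8 : ℝ) ^ (d + 1 - s) ≤ 8 ^ (d + 1) :=
    pow_le_pow_right₀ (by norm_num) (Nat.sub_le _ _)
  gcongr

end Pool.Agent.R414.EA
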