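import Pool.Agent.W613.GEPack

/-!
# Integral polynomials in one variable which vanish at several points
-/

set_option autoImplicit false

open Finset

namespace Pool.Agent.R414.EA

/-- solving by a minor of maximal absolute value -/
theorem max_minor {ι : Type} [Fintype ι] [DecidableEq ι] {m : ℕ} (X : ι → Fin m → ℂ)
    (hX : ∃ L : ι → Fin m, (Matrix.of fun i j => X i (L j)).det ≠ 0) :
    ∃ L : ι → Fin m, Function.Injective L ∧ ∀ (h : Fin m → ℤ) (b : ℝ), 0 ≤ b →
      (∀ i, ∑ k, (h k : ℂ) * X i k = 0) → (∀ k, k ∉ Set.range L → |(h k : ℝ)| ≤ b) →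
      ∀ k, |(h k : ℝ)| ≤ m * b := by
  classical
  obtain ⟨L, -, hL⟩ := Finset.exists_max_image (Finset.univ : Finset (ι → Fin m))
    (fun L => ‖(Matrix.of fun i j => X i (L j)).det‖) ⟨hX.choose, Finset.mem_univ _⟩
  have hdet : (Matrix.of fun i j => X i (L j)).det ≠ 0 := by
    obtain ⟨L', hL'⟩ := hX
    have h1 := hL L' (Finset.mem_univ _)
    have h2 : 0 < ‖(Matrix.of fun i j => X i (L' j)).det‖ := norm_pos_iff.mpr hL'
    exact norm_pos_iff.mp (h2.trans_le h1)
  have hinj : Function.Injective L := by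
    intro j j' hj
    by_contra hne
    exact hdet (Matrix.det_zero_of_column_eq hne fun i => by simp [Matrix.of_apply, hj])
  refine ⟨L, hinj, fun h b hb hz hs => ?_⟩
  set A : Matrix ι ι ℂ := Matrix.of fun i j => X i (L j) with hA
  -- Cramer
  let c : Fin m → ι → ℂ := fun k j => Matrix.cramer A (fun i => X i k) j / A.det
  have hc1 : ∀ k j, ‖c k j‖ ≤ 1 := by
    intro k j
    simp only [c]
    rw [norm_div, div_le_one (norm_pos_iff.mpr hdet), Matrix.cramer_apply]
    have h1 := hL (Function.update L j k) (Finset.mem_univ _)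
    have h2 : A.updateCol j (fun i => X i k) =
        Matrix.of fun i j' => X i (Function.update L j k j') := by
      ext i j'
      rw [Matrix.updateCol_apply]
      simp only [hA, Matrix.of_apply, Function.update_apply]
      split_ifs <;> rfl
    rw [h2]
    exact h1
  have hc2 : ∀ k i, ∑ j, A i j * c k j = X i k := by
    intro k i
    have h1 := congrFun (Matrix.mulVec_cramer A (fun i => X i k)) i
    rw [Matrix.mulVec, dotProduct] at h1
    simp only [Pi.smul_apply, smul_eq_mul] at h1
    simp only [c, mul_div_assoc']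
    rw [← Finset.sum_div, h1, mul_div_cancel_left₀ _ hdet]
  set R : Finset (Fin m) := Finset.univ.filter fun k => k ∉ Set.range L with hR
  let v : ι → ℂ := fun j => (h (L j) : ℂ) + ∑ k ∈ R, (h k : ℂ) * c k j
  have hv : A.mulVec v = 0 := by
    funext i
    rw [Matrix.mulVec, dotProduct]
    simp only [v, mul_add, Finset.mul_sum, Finset.sum_add_distrib]
    rw [Finset.sum_comm]
    have h1 : ∑ k ∈ R, ∑ j, A i j * ((h k : ℂ) * c k j) = ∑ k ∈ R, (h k : ℂ) * X i k := by
      refine Finset.sum_congr rfl fun k _ => ?_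
      rw [← hc2 k i, Finset.mul_sum]
      exact Finset.sum_congr rfl fun j _ => by ring
    have h2 : ∑ j, A i j * (h (L j) : ℂ) = ∑ k ∈ Finset.univ.image L, (h k : ℂ) * X i k := by
      rw [Finset.sum_image fun a _ b _ hab => hinj hab]
      exact Finset.sum_congr rfl fun j _ => by simp [hA, mul_comm]
    have h3 : (Finset.univ : Finset (Fin m)) = Finset.univ.image L ∪ R := by
      ext k
      simp only [Finset.mem_univ, Finset.mem_union, Finset.mem_image, true_and, hR,
        Finset.mem_filter, Set.mem_range, true_iff]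
      exact em _
    have h4 : Disjoint (Finset.univ.image L) R := by
      rw [Finset.disjoint_left]
      intro k hk hk'
      simp only [Finset.mem_image, Finset.mem_univ, true_and] at hk
      simp only [hR, Finset.mem_filter, Set.mem_range, Finset.mem_univ, true_and] at hk'
      exact hk' hk
    have h5 := hz i
    rw [h3, Finset.sum_union h4] at h5
    rw [h1, h2, h5]
    rfl
  have hv0 : v = 0 := Matrix.eq_zero_of_mulVec_eq_zero hdet hv
  have hRb : ∀ k ∈ R, |(h k : ℝ)| ≤ b := by
    intro k hk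
    simp only [hR, Finset.mem_filter, Finset.mem_univ, true_and] at hk
    exact hs k hk
  intro k
  have hm1 : (1 : ℝ) ≤ m := by exact_mod_cast (Nat.one_le_iff_ne_zero.mpr fun h0 => by
    subst h0; exact k.elim0)
  by_cases hk : k ∈ Set.range L
  · obtain ⟨j, rfl⟩ := hk
    have h1 : (h (L j) : ℂ) = -∑ k ∈ R, (h k : ℂ) * c k j :=
      eq_neg_of_add_eq_zero_left (congrFun hv0 j)
    have h2 : |(h (L j) : ℝ)| = ‖(h (L j) : ℂ)‖ := by rw [Complex.norm_intCast]
    rw [h2, h1, norm_neg]
    calc ‖∑ k ∈ R, (h k : ℂ) * c k j‖ ≤ ∑ k ∈ R, ‖(h k : ℂ) * c k j‖ := norm_sum_le _ _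
      _ ≤ ∑ _k ∈ R, b := by
          refine Finset.sum_le_sum fun k hk => ?_
          rw [norm_mul, Complex.norm_intCast]
          calc |(h k : ℝ)| * ‖c k j‖ ≤ b * 1 :=
                mul_le_mul (hRb k hk) (hc1 k j) (norm_nonneg _) hb
            _ = b := mul_one b
      _ = R.card * b := by rw [Finset.sum_const, nsmul_eq_mul]
      _ ≤ m * b := by
          refine mul_le_mul_of_nonneg_right ?_ hb
          exact_mod_cast (Finset.card_le_univ R).trans (by rw [Fintype.card_fin])
  · exact (hs k hk).trans (by nlinarith)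

/-- the number of zeros of one variable -/
noncomputable def nz1 {ι : Type} (d T : ℕ) (x : ι → ℂ) : ℕ :=
  {h : Fin (d + 1) → ℤ | (∀ k, |h k| ≤ T) ∧ ∀ i, ∑ k, (h k : ℂ) * x i ^ (k : ℕ) = 0}.ncard

theorem exists_vandermonde {ι : Type} [Fintype ι] [DecidableEq ι] {d : ℕ} (x : ι → ℂ)
    (hx : Function.Injective x) (hι : Fintype.card ι ≤ d + 1) :
    ∃ L : ι → Fin (d + 1), (Matrix.of fun i j => x i ^ ((L j : Fin (d + 1)) : ℕ)).det ≠ 0 := by
  let e := Fintype.equivFin ι
  refine ⟨fun j => Fin.castLE hι (e j), ?_⟩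
  have h1 : (Matrix.of fun i j => x i ^ ((Fin.castLE hι (e j) : Fin (d + 1)) : ℕ)) =
      (Matrix.vandermonde (x ∘ e.symm)).submatrix e e := by
    ext i j
    simp [Matrix.vandermonde]
  rw [h1, Matrix.det_submatrix_equiv_self, Matrix.det_vandermonde_ne_zero_iff]
  exact hx.comp e.symm.injective

theorem one_count {ι : Type} [Fintype ι] {d : ℕ} (x : ι → ℂ)
    (hx : Function.Injective x) (hι : Fintype.card ι ≤ d + 1) {w T : ℕ} (hw : 1 ≤ w) (hwT : w ≤ T)
    (hno : ∀ h : Fin (d + 1) → ℤ, (∀ k, |(h k : ℝ)| ≤ (d + 1) * ((w : ℝ) - 1)) →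
      (∀ i, ∑ k, (h k : ℂ) * x i ^ (k : ℕ) = 0) → h = 0) :
    (nz1 d T x : ℝ) ≤ (4 * T / w) ^ (d + 1 - Fintype.card ι) := by
  classical
  obtain ⟨L, hinj, hL⟩ := max_minor (fun i (k : Fin (d + 1)) => x i ^ (k : ℕ))
    (exists_vandermonde x hx hι)
  have hwZ : (0 : ℤ) < w := by exact_mod_cast hw
  have hw1 : (1 : ℝ) ≤ w := by exact_mod_cast hw
  let S : Fin (d + 1) → Finset ℤ := fun k => if k ∈ Set.range L then {0} else
    Finset.Icc (-(T : ℤ) / w) ((T : ℤ) / w)
  let code : (Fin (d + 1) → ℤ) → (Fin (d + 1) → ℤ) := fun h k =>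
    if k ∈ Set.range L then 0 else h k / w
  have hcount : nz1 d T x ≤ (Fintype.piFinset S).card := by
    unfold nz1
    rw [← Set.ncard_coe_finset]
    apply Set.ncard_le_ncard_of_injOn code
    · rintro G ⟨hG, -⟩
      rw [Finset.mem_coe, Fintype.mem_piFinset]
      intro k
      have hGk := abs_le.mp (hG k)
      simp only [S, code]
      split_ifs with h1
      · exact Finset.mem_singleton.mpr rfl
      · exact Finset.mem_Icc.mpr ⟨Int.ediv_le_ediv hwZ hGk.1, Int.ediv_le_ediv hwZ hGk.2⟩
    · rintro G ⟨-, hG⟩ G' ⟨-, hG'⟩ hc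
      obtain ⟨h, hh⟩ : ∃ h, h = G - G' := ⟨_, rfl⟩
      have hev : ∀ i, ∑ k, (h k : ℂ) * x i ^ (k : ℕ) = 0 := by
        intro i
        rw [hh]
        simp only [Pi.sub_apply, Int.cast_sub, sub_mul, Finset.sum_sub_distrib]
        rw [hG i, hG' i, sub_zero]
      have hsmall : ∀ k, k ∉ Set.range L → |(h k : ℝ)| ≤ (w : ℝ) - 1 := by
        intro k hk
        have h1 := congrFun hc k
        simp only [code, if_neg hk] at h1
        have e1 := Int.mul_ediv_add_emod (G k) w
        have e2 := Int.mul_ediv_add_emod (G' k) w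
        have e3 := Int.emod_nonneg (G k) hwZ.ne'
        have e4 := Int.emod_lt_of_pos (G k) hwZ
        have e5 := Int.emod_nonneg (G' k) hwZ.ne'
        have e6 := Int.emod_lt_of_pos (G' k) hwZ
        rw [h1] at e1
        have e7 : |h k| ≤ (w : ℤ) - 1 := by
          rw [hh, Pi.sub_apply, abs_le]
          constructor <;> linarith
        exact_mod_cast e7
      have hall := hL h ((w : ℝ) - 1) (by linarith) hev hsmall
      have hh0 : h = 0 := hno h (fun k => by have := hall k; push_cast at this; exact this) hev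
      rw [hh0] at hh
      exact sub_eq_zero.mp hh.symm
  have hcell := Pool.Agent.W613.GEPack.cell_card T w hw hwT
  refine le_trans (Nat.cast_le.mpr hcount : (nz1 d T x : ℝ) ≤ ((Fintype.piFinset S).card : ℝ)) ?_
  rw [Fintype.card_piFinset, Nat.cast_prod]
  have hsplit : ∏ k, ((S k).card : ℝ) =
      ∏ k ∈ Finset.univ.filter (fun k => k ∉ Set.range L),
        ((Finset.Icc (-(T : ℤ) / w) ((T : ℤ) / w)).card : ℝ) := by
    rw [Finset.prod_filter]
    refine Finset.prod_congr rfl fun k _ => ?_
    simp only [S]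
    split_ifs <;> simp_all
  rw [hsplit, Finset.prod_const]
  have hcard : (Finset.univ.filter (fun k => k ∉ Set.range L)).card = d + 1 - Fintype.card ι := by
    have h1 : Finset.univ.filter (fun k => k ∉ Set.range L) = (Finset.univ.image L)ᶜ := by
      ext k
      simp
    rw [h1, Finset.card_compl, Finset.card_image_of_injective _ hinj, Fintype.card_fin,
      Finset.card_univ]
  rw [hcard]
  exact pow_le_pow_left₀ (Nat.cast_nonneg _) hcell _

end Pool.Agent.R414.EA
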