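import Pool.Agent.R414.EA.Multi

/-!
# Linear forms which separate points
-/

set_option autoImplicit false

open Finset
open Pool.Agent.W276.GE

noncomputable section

namespace Pool.Agent.R414.EA

/-- avoiding the zeros of finitely many polynomials -/
theorem exists_avoid {J : Type} [Fintype J] (Q : J → Polynomial ℂ) (n : ℕ) (hQ : ∀ j, Q j ≠ 0)
    (hd : ∀ j, (Q j).natDegree ≤ n) :
    ∃ t : ℕ, t ≤ Fintype.card J * n ∧ ∀ j, (Q j).eval (t : ℂ) ≠ 0 := by
  classical
  by_contra hcon
  push Not at hcon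
  have h1 : (∏ j, Q j) = 0 := by
    refine Polynomial.eq_zero_of_natDegree_lt_card_of_eval_eq_zero' (∏ j, Q j)
      ((Finset.range (Fintype.card J * n + 1)).image (fun t : ℕ => (t : ℂ))) ?_ ?_
    · intro z hz
      obtain ⟨t, ht, rfl⟩ := Finset.mem_image.mp hz
      rw [Finset.mem_range] at ht
      obtain ⟨j, hj⟩ := hcon t (by omega)
      rw [Polynomial.eval_prod]
      exact Finset.prod_eq_zero (Finset.mem_univ j) hj
    · rw [Finset.card_image_of_injective _ Nat.cast_injective, Finset.card_range]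
      refine lt_of_le_of_lt (Polynomial.natDegree_prod_le _ _) ?_
      have h2 : ∑ j, (Q j).natDegree ≤ ∑ _j : J, n := Finset.sum_le_sum fun j _ => hd j
      rw [Finset.sum_const, Finset.card_univ, smul_eq_mul] at h2
      omega
  exact Finset.prod_ne_zero_iff.mpr (fun j _ => hQ j) h1

/-- the polynomial with given coefficients -/
def cpol {n : ℕ} (c : Fin n → ℂ) : Polynomial ℂ := ∑ l, Polynomial.C (c l) * Polynomial.X ^ (l : ℕ)

theorem cpol_ne_zero {n : ℕ} {c : Fin n → ℂ} (hc : c ≠ 0) : cpol c ≠ 0 := by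
  intro h
  apply hc
  funext l
  have h1 := congrArg (fun q => Polynomial.coeff q (l : ℕ)) h
  simp only [cpol, Polynomial.finsetSum_coeff, Polynomial.coeff_C_mul, Polynomial.coeff_X_pow,
    Polynomial.coeff_zero] at h1
  rw [Finset.sum_eq_single l] at h1
  · simpa using h1
  · intro b _ hb
    rw [if_neg (fun h => hb (Fin.ext h.symm)), mul_zero]
  · intro h
    exact absurd (Finset.mem_univ _) h

theorem cpol_natDegree {N : ℕ} (c : Fin (N + 1) → ℂ) : (cpol c).natDegree ≤ N := by
  refine Polynomial.natDegree_sum_le_of_forall_le _ _ fun l _ => ?_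
  refine (Polynomial.natDegree_C_mul_X_pow_le _ _).trans ?_
  have := l.2
  omega

theorem cpol_eval {n : ℕ} (c : Fin n → ℂ) (t : ℕ) :
    (cpol c).eval (t : ℂ) = lv (fun l : Fin n => ((t ^ (l : ℕ) : ℕ) : ℤ)) c := by
  simp only [cpol, Polynomial.eval_finsetSum, Polynomial.eval_mul, Polynomial.eval_C,
    Polynomial.eval_pow, Polynomial.eval_X, lv]
  refine Finset.sum_congr rfl fun l _ => ?_
  push_cast
  ring

/-- the bound for the coefficients -/
def bd (N s : ℕ) : ℕ := (s ^ 2 * N + s * N + 1) ^ N + s ^ 2 + 1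

/-- the perturbed coefficients -/
def pert {n : ℕ} (a : Fin n → ℤ) (l : Fin n) (m : ℕ) : Fin n → ℤ := a + Pi.single l (m : ℤ)

theorem lv_add {n : ℕ} (a b : Fin n → ℤ) (x : Fin n → ℂ) : lv (a + b) x = lv a x + lv b x := by
  simp [lv, add_mul, Finset.sum_add_distrib]

theorem pow_le_bd {N s t : ℕ} (ht : t ≤ s ^ 2 * N + s * N + 1) (l : Fin (N + 1)) :
    t ^ (l : ℕ) ≤ (s ^ 2 * N + s * N + 1) ^ N :=
  (Nat.pow_le_pow_left ht _).trans (Nat.pow_le_pow_right (by omega) (by have := l.2; omega))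

/-- separation of points by quotients of linear forms -/
theorem exists_sep {N s : ℕ} {ι : Type} [Fintype ι] (hs : Fintype.card ι ≤ s)
    (p : ι → Fin (N + 1) → ℂ) (h0 : ∀ i, p i ≠ 0) (hp : ∀ i j, i ≠ j → ∀ c : ℂ, p i ≠ c • p j) :
    ∃ b : Fin (N + 1) → ℤ, (∀ l, 0 ≤ b l ∧ b l ≤ bd N s) ∧ (∀ i, lv b (p i) ≠ 0) ∧
      ∃ a : Fin (N + 1) → ℤ, (∀ l, 0 ≤ a l ∧ a l ≤ bd N s) ∧
        (Function.Injective fun i => lv a (p i) / lv b (p i)) ∧
        ∀ l : Fin (N + 1), ∃ m : ℕ, 1 ≤ m ∧ m ≤ bd N s ∧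
          (∀ l', 0 ≤ pert a l m l' ∧ pert a l m l' ≤ bd N s) ∧
          (Function.Injective fun i => lv (pert a l m) (p i) / lv b (p i)) := by
  classical
  -- the denominator
  obtain ⟨t, ht, htb⟩ := exists_avoid (fun i => cpol (p i)) N (fun i => cpol_ne_zero (h0 i))
    (fun i => cpol_natDegree _)
  set b : Fin (N + 1) → ℤ := fun l => ((t ^ (l : ℕ) : ℕ) : ℤ) with hb
  have hV : ∀ i, lv b (p i) ≠ 0 := by
    intro i
    rw [hb, ← cpol_eval]
    exact htb i
  have ht' : t ≤ s ^ 2 * N + s * N + 1 := by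
    have : Fintype.card ι * N ≤ s * N := Nat.mul_le_mul_right _ hs
    have h2 := Nat.zero_le (s ^ 2 * N)
    omega
  -- pairs
  let J : Type := {q : ι × ι // q.1 ≠ q.2}
  have hJ : Fintype.card J ≤ s ^ 2 := by
    refine (Fintype.card_subtype_le _).trans ?_
    rw [Fintype.card_prod, sq]
    exact Nat.mul_le_mul hs hs
  have key : ∀ (a : Fin (N + 1) → ℤ), (∀ q : J, lv a (p q.1.1) * lv b (p q.1.2) -
      lv a (p q.1.2) * lv b (p q.1.1) ≠ 0) →
      Function.Injective fun i => lv a (p i) / lv b (p i) := by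
    intro a ha i j hij
    by_contra hne
    apply ha ⟨(i, j), hne⟩
    simp only at hij ⊢
    rw [div_eq_div_iff (hV i) (hV j)] at hij
    rw [hij, sub_self]
  -- the numerator
  obtain ⟨u, hu, hua⟩ := exists_avoid (J := J)
    (fun q => cpol (fun l => p q.1.1 l * lv b (p q.1.2) - p q.1.2 l * lv b (p q.1.1))) N (by
      intro q
      apply cpol_ne_zero
      intro h
      apply hp q.1.1 q.1.2 q.2 (lv b (p q.1.1) / lv b (p q.1.2))
      funext l
      have h1 := congrFun h l
      simp only [Pi.zero_apply] at h1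
      rw [Pi.smul_apply, smul_eq_mul, div_mul_eq_mul_div, eq_div_iff (hV _)]
      linear_combination h1) (fun q => cpol_natDegree _)
  set a : Fin (N + 1) → ℤ := fun l => ((u ^ (l : ℕ) : ℕ) : ℤ) with ha
  have hU : ∀ q : J, lv a (p q.1.1) * lv b (p q.1.2) - lv a (p q.1.2) * lv b (p q.1.1) ≠ 0 := by
    intro q
    have h1 := hua q
    rw [cpol_eval] at h1
    intro h2
    apply h1
    rw [← h2]
    simp only [lv, mul_sub, Finset.sum_sub_distrib, Finset.sum_mul, mul_assoc]
    rfl
  have hu' : u ≤ s ^ 2 * N + s * N + 1 := by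
    have : Fintype.card J * N ≤ s ^ 2 * N := Nat.mul_le_mul_right _ hJ
    have h2 := Nat.zero_le (s * N)
    omega
  have hbd1 : ∀ {t' : ℕ}, t' ≤ s ^ 2 * N + s * N + 1 → ∀ l : Fin (N + 1),
      (0 : ℤ) ≤ ((t' ^ (l : ℕ) : ℕ) : ℤ) ∧ ((t' ^ (l : ℕ) : ℕ) : ℤ) + (s ^ 2 + 1) ≤ bd N s := by
    intro t' h l
    refine ⟨by positivity, ?_⟩
    have h1 := pow_le_bd h l
    rw [bd]
    push_cast
    have h2 : ((t' ^ (l : ℕ) : ℕ) : ℤ) ≤ (((s ^ 2 * N + s * N + 1) ^ N : ℕ) : ℤ) := by
      exact_mod_cast h1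
    push_cast at h2
    linarith
  have hs2 : (0 : ℤ) ≤ (s : ℤ) ^ 2 + 1 := by positivity
  refine ⟨b, fun l => ⟨(hbd1 ht' l).1, by have := (hbd1 ht' l).2; simp only [hb]; linarith⟩, hV, a,
    fun l => ⟨(hbd1 hu' l).1, by have := (hbd1 hu' l).2; simp only [ha]; linarith⟩,
    key a hU, fun l => ?_⟩
  -- the perturbation
  obtain ⟨m, hm, hma⟩ := exists_avoid (J := Option J)
    (fun q => match q with
      | none => Polynomial.X
      | some q => Polynomial.C (lv a (p q.1.1) * lv b (p q.1.2) - lv a (p q.1.2) * lv b (p q.1.1)) +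
          Polynomial.C (p q.1.1 l * lv b (p q.1.2) - p q.1.2 l * lv b (p q.1.1)) * Polynomial.X) 1
    (by
      rintro (_ | q)
      · exact Polynomial.X_ne_zero
      · intro h
        have h1 := congrArg (Polynomial.eval 0) h
        simp only [Polynomial.eval_add, Polynomial.eval_mul, Polynomial.eval_C,
          Polynomial.eval_X, mul_zero, add_zero, Polynomial.eval_zero] at h1
        exact hU q h1)
    (by
      rintro (_ | q)
      · exact Polynomial.natDegree_X_le
      · refine (Polynomial.natDegree_add_le _ _).trans (max_le ?_ ?_)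
        · rw [Polynomial.natDegree_C]
          exact zero_le_one
        · refine (Polynomial.natDegree_C_mul_le _ _).trans ?_
          exact Polynomial.natDegree_X_le)
  have hm' : m ≤ s ^ 2 + 1 := by
    rw [Fintype.card_option, mul_one] at hm
    omega
  have hm1 : 1 ≤ m := by
    have h1 := hma none
    rw [Nat.one_le_iff_ne_zero]
    rintro rfl
    simp at h1
  refine ⟨m, hm1, hm'.trans (by rw [bd]; omega), fun l' => ?_, ?_⟩
  · rw [pert, Pi.add_apply]
    have h1 : (0 : ℤ) ≤ (Pi.single l (m : ℤ) : Fin (N + 1) → ℤ) l' ∧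
        (Pi.single l (m : ℤ) : Fin (N + 1) → ℤ) l' ≤ (s : ℤ) ^ 2 + 1 := by
      by_cases h : l' = l
      · subst h
        rw [Pi.single_eq_same]
        exact ⟨by positivity, by exact_mod_cast hm'⟩
      · rw [Pi.single_eq_of_ne h]
        exact ⟨le_rfl, hs2⟩
    have h2 := hbd1 hu' l'
    simp only [ha]
    constructor
    · linarith [h2.1, h1.1]
    · linarith [h2.2, h1.2]
  · refine key _ fun q => ?_
    have h1 := hma (some q)
    simp only [Polynomial.eval_add, Polynomial.eval_mul, Polynomial.eval_C,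
      Polynomial.eval_X] at h1
    have h2 : ∀ x : Fin (N + 1) → ℂ, lv (Pi.single l (m : ℤ)) x = m * x l := by
      intro x
      rw [lv, Finset.sum_eq_single l]
      · simp
      · intro l' _ hl'
        simp [Pi.single_eq_of_ne hl']
      · intro h
        exact absurd (Finset.mem_univ _) h
    rw [pert, lv_add, lv_add, h2, h2]
    intro h3
    apply h1
    linear_combination h3

end Pool.Agent.R414.EA
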