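import Pool.Agent.R414.EA.Bd
import Pool.Agent.W276.GE.Close

/-!
# The upper bound for the number of systems with several preperiodic points
-/

set_option autoImplicit false

open Finset Height NumberField
open Pool.Agent.W276.GE

noncomputable section

namespace Pool.Agent.R414.EA

/-- the self-map of `K^(N+1)` -/
def fm (K : Type) [Field K] {N d : ℕ} (F : Fin (N + 1) → E (N + 1) d → ℤ)
    (x : Fin (N + 1) → K) : Fin (N + 1) → K := fun l => ev (F l) x

/-- Over some number field `K` of degree at most `D` there are `k` different preperiodic points. -/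
def Many {N d : ℕ} (D k : ℕ) (F : Fin (N + 1) → E (N + 1) d → ℤ) : Prop :=
  ∃ (K : Type) (_ : Field K) (_ : NumberField K), Module.finrank ℚ K ≤ D ∧
    ∃ p : Fin k → Fin (N + 1) → K, (∀ i, p i ≠ 0) ∧ (∀ i j, i ≠ j → ∀ c : K, p i ≠ c • p j) ∧
      ∀ i, ∃ m n : ℕ, m < n ∧ ∃ c : K, c ≠ 0 ∧ (fm K F)^[n] (p i) = c • (fm K F)^[m] (p i)

theorem fm_smul {K : Type} [Field K] {N d : ℕ} (F : Fin (N + 1) → E (N + 1) d → ℤ) (c : K)
    (x : Fin (N + 1) → K) : fm K F (c • x) = c ^ d • fm K F x := by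
  funext l
  exact ev_smul c (F l) x

theorem fm_iter_smul {K : Type} [Field K] {N d : ℕ} (F : Fin (N + 1) → E (N + 1) d → ℤ) (s : ℕ) :
    ∀ (c : K), c ≠ 0 → ∀ x : Fin (N + 1) → K,
      ∃ c' : K, c' ≠ 0 ∧ (fm K F)^[s] (c • x) = c' • (fm K F)^[s] x := by
  induction s with
  | zero => exact fun c hc x => ⟨c, hc, rfl⟩
  | succ s ih =>
    intro c hc x
    obtain ⟨c', hc', h⟩ := ih (c ^ d) (pow_ne_zero _ hc) (fm K F x)
    refine ⟨c', hc', ?_⟩
    rw [Function.iterate_succ_apply, Function.iterate_succ_apply, fm_smul, h]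

theorem height_red {K : Type} [Field K] [NumberField K] {N d : ℕ}
    (F : Fin (N + 1) → E (N + 1) d → ℤ) (x : Fin (N + 1) → K) {m n : ℕ} (hmn : m < n) {c : K}
    (hc : c ≠ 0) (h : (fm K F)^[n] x = c • (fm K F)^[m] x) (t : ℕ) :
    ∃ t', t' < n ∧ mulHeight ((fm K F)^[t] x) = mulHeight ((fm K F)^[t'] x) := by
  induction t using Nat.strong_induction_on with
  | _ t ih =>
    rcases lt_or_ge t n with ht | ht
    · exact ⟨t, ht, rfl⟩
    · obtain ⟨t', ht', h'⟩ := ih (t - n + m) (by omega)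
      refine ⟨t', ht', ?_⟩
      rw [← h']
      obtain ⟨c', hc', h2⟩ := fm_iter_smul F (t - n) c hc ((fm K F)^[m] x)
      have h3 : (fm K F)^[t] x = c' • (fm K F)^[t - n + m] x := by
        rw [Function.iterate_add_apply, ← h2, ← h, ← Function.iterate_add_apply]
        congr 1
        omega
      rw [h3, mulHeight_smul_eq_mulHeight _ hc']

theorem Many.exists_at {N d D k : ℕ} (hk : 1 ≤ k) {F : Fin (N + 1) → E (N + 1) d → ℤ}
    (hF : NoZero F) (h : Many D k F) : ∃ κ, ManyAt D k κ F := by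
  classical
  obtain ⟨K, i1, i2, hK, p, hp0, hpp, hpre⟩ := h
  let φ : K →+* ℂ := Classical.arbitrary _
  let f := fm K F
  have hf0 : ∀ x, x ≠ 0 → f x ≠ 0 := fun x hx => image_ne_zero hF φ hx
  have hit0 : ∀ t i, f^[t] (p i) ≠ 0 := by
    intro t i
    induction t with
    | zero => exact hp0 i
    | succ t ih => rw [Function.iterate_succ_apply']; exact hf0 _ ih
  choose m n hmn c hc hcy using hpre
  -- the highest point
  obtain ⟨⟨i₁, t₁⟩, hmem, hmax⟩ := Finset.exists_max_image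
    ((Finset.univ : Finset (Fin k)) ×ˢ Finset.range (∑ i, n i))
    (fun q => mulHeight (f^[q.2] (p q.1))) (by
      refine ⟨(⟨0, hk⟩, 0), ?_⟩
      rw [Finset.mem_product, Finset.mem_range]
      refine ⟨Finset.mem_univ _, ?_⟩
      have h1 := Finset.single_le_sum (f := n) (fun i _ => Nat.zero_le _)
        (Finset.mem_univ (⟨0, hk⟩ : Fin k))
      have h2 := hmn ⟨0, hk⟩
      omega)
  have hall : ∀ i t, mulHeight (f^[t] (p i)) ≤ mulHeight (f^[t₁] (p i₁)) := by
    intro i t
    obtain ⟨t', ht', h'⟩ := height_red F (p i) (hmn i) (hc i) (hcy i) t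
    have h1 : mulHeight (f^[t] (p i)) = mulHeight (f^[t'] (p i)) := h'
    rw [h1]
    refine hmax (i, t') ?_
    rw [Finset.mem_product, Finset.mem_range]
    refine ⟨Finset.mem_univ _, ?_⟩
    have h2 := Finset.single_le_sum (f := n) (fun i _ => Nat.zero_le _) (Finset.mem_univ i)
    omega
  set y := f^[t₁] (p i₁) with hy
  have hy0 : y ≠ 0 := hit0 _ _
  have hfy : mulHeight (f y) ≤ mulHeight y := by
    have := hall i₁ (t₁ + 1)
    rwa [Function.iterate_succ_apply'] at this
  obtain ⟨κ, h2, h3⟩ := exists_nat_pow_near (one_le_mulHeight y) (by norm_num : (1 : ℝ) < 2)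
  refine ⟨κ, K, i1, i2, hK, ?_⟩
  by_cases hex : ∃ i₂ : Fin k, ∃ a : K, y = a • p i₂
  · obtain ⟨i₂, a, ha⟩ := hex
    have ha0 : a ≠ 0 := by
      rintro rfl
      rw [zero_smul] at ha
      exact hy0 ha
    have hyp : mulHeight y = mulHeight (p i₂) := by
      rw [ha, mulHeight_smul_eq_mulHeight _ ha0]
    refine ⟨p, hp0, hpp, i₂, ?_, ?_, ?_, ?_⟩
    · intro i
      rw [← hyp]
      exact hall i 0
    · intro i
      rw [← hyp]
      exact hall i 1
    · rw [← hyp]
      exact h2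
    · rw [← hyp]
      exact h3.le
  · push Not at hex
    refine ⟨Function.update p i₁ y, ?_, ?_, i₁, ?_, ?_, ?_, ?_⟩
    · intro i
      by_cases hi : i = i₁
      · subst hi
        rw [Function.update_self]
        exact hy0
      · rw [Function.update_of_ne hi]
        exact hp0 i
    · intro i j hij a
      by_cases hi : i = i₁
      · subst hi
        rw [Function.update_self, Function.update_of_ne (Ne.symm hij)]
        exact hex j a
      · rw [Function.update_of_ne hi]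
        by_cases hj : j = i₁
        · subst hj
          rw [Function.update_self]
          intro h
          have ha : a ≠ 0 := by
            rintro rfl
            rw [zero_smul] at h
            exact hp0 i h
          apply hex i a⁻¹
          rw [h, smul_smul, inv_mul_cancel₀ ha, one_smul]
        · rw [Function.update_of_ne hj]
          exact hpp i j hij a
    · intro i
      rw [Function.update_self]
      by_cases hi : i = i₁
      · subst hi
        rw [Function.update_self]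
      · rw [Function.update_of_ne hi]
        exact hall i 0
    · intro i
      rw [Function.update_self]
      by_cases hi : i = i₁
      · subst hi
        rw [Function.update_self]
        exact hfy
      · rw [Function.update_of_ne hi]
        exact hall i 1
    · rw [Function.update_self]
      exact h2
    · rw [Function.update_self]
      exact h3.le

theorem many_count (hspan : S_span) (hcov : S_cov) (hlow : S_low) (hpack : S_pack)
    (hroot : S_root) (hprod : S_prod) (hpts : S_pts) (N D k : ℕ) (hN : 1 ≤ N) (hD : 1 ≤ D)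
    (hk : 1 ≤ k) : ∃ d₀ : ℕ, ∀ d, d₀ ≤ d → k ≤ d ∧ ∃ C : ℝ, 0 < C ∧
      ∀ H : ℕ, 1 ≤ H → (({F | F ∈ Fb (N + 1) d H ∧ NoZero F ∧ Many D k F} :
      Set (Fin (N + 1) → E (N + 1) d → ℤ)).ncard : ℝ) ≤
        C * (H : ℝ) ^ ((N + 1) * Fintype.card (E (N + 1) d) - k * N) := by
  classical
  obtain ⟨c, C₂, hc⟩ := hpts D
  obtain ⟨d₀, hd₀⟩ := nzS_bound hspan hcov hlow hpack hroot hprod N D k
    (c * (2 * (N + 1) * k) + 1) hN hD
  refine ⟨d₀, fun d hd => ?_⟩
  obtain ⟨hkd, C₁, hC₁, h₁⟩ := hd₀ d hd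
  refine ⟨hkd, ?_⟩
  obtain ⟨C₀, hC₀, h₀⟩ := nzS_trivial N d k hN hkd
  set M := Fintype.card (E (N + 1) d) with hM
  set C₄ := max C₀ C₁ with hC₄
  have hC₄0 : 0 < C₄ := lt_max_of_lt_left hC₀
  set C₃ : ℝ := (C₂ * 2 ^ c) ^ (2 * (N + 1) * k) * C₄ ^ (N + 1) with hC₃
  have hC₃0 : 0 ≤ C₃ := by
    have : 0 ≤ (C₂ * 2 ^ c) ^ (2 * (N + 1) * k) := by
      apply Even.pow_nonneg
      rw [mul_assoc]
      exact even_two_mul _
    positivity
  refine ⟨2 * C₃ + 1, by linarith, fun H hH => ?_⟩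
  have hH0 : (0 : ℝ) ≤ (H : ℝ) ^ ((N + 1) * M - k * N) := by positivity
  have h2 := shells (W := {F : Fin (N + 1) → E (N + 1) d → ℤ |
      F ∈ Fb (N + 1) d H ∧ NoZero F ∧ Many D k F})
    ((Finset.finite_toSet (Fb (N + 1) d H)).subset fun F h => h.1)
    (fun κ => {F | F ∈ Fb (N + 1) d H ∧ NoZero F ∧ ManyAt D k κ F})
    (fun κ => (Finset.finite_toSet (Fb (N + 1) d H)).subset fun F h => h.1)
    (by
      rintro F ⟨hF, hF0, hFm⟩
      obtain ⟨κ, hκ⟩ := hFm.exists_at hk hF0
      exact ⟨κ, hF, hF0, hκ⟩)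
    (X := C₃ * (H : ℝ) ^ ((N + 1) * M - k * N)) (mul_nonneg hC₃0 hH0) (by
      intro κ
      obtain ⟨A, hA1, hA⟩ := hc (2 ^ (κ + 1)) (one_le_pow₀ (by norm_num))
      refine manyAt_count (c := c) hC₄0 hH hN rfl hkd ?_ ?_ hA1
        (fun K _ _ hK x hx φ => hA K hK x hx φ)
      · intro ι _ hι p hp0 hpp
        refine (h₀ ι hι p hp0 hpp H hH).trans ?_
        gcongr
        exact le_max_left _ _
      · intro F hF hF0 K _ _ hK P hP hle φ ι _ hι p hp0 hpp i₀ hi₀
        refine (h₁ H hH F hF hF0 K hK P hP hle φ ι hι p hp0 hpp i₀ hi₀).trans ?_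
        gcongr
        exact le_max_right _ _)
  refine h2.trans ?_
  nlinarith

theorem upper (N D k : ℕ) (hN : 1 ≤ N) (hD : 1 ≤ D) (hk : 1 ≤ k) : ∃ d₀ : ℕ, ∀ d, d₀ ≤ d →
    k ≤ d ∧ ∃ C : ℝ, 0 < C ∧
      ∀ H : ℕ, 1 ≤ H → (({F | F ∈ Fb (N + 1) d H ∧ NoZero F ∧ Many D k F} :
      Set (Fin (N + 1) → E (N + 1) d → ℤ)).ncard : ℝ) ≤
        C * (H : ℝ) ^ ((N + 1) * Fintype.card (E (N + 1) d) - k * N) :=
  many_count (W405.GE.span_of_mac (W216.GE.mac W85.GE.perm W333.GELin.lin W366.GE.hyp)) W216.GE.cov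
    (W462.GE.arch W108.GE.ideal) (W613.GEPack.pack W347.GE.root W135.GE.prod) W347.GE.root
    W135.GE.prod W32.GE.pts N D k hN hD hk

end Pool.Agent.R414.EA
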